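import Pool.Agent.W31.JP.Conv

set_option autoImplicit false
set_option linter.unusedSectionVars false
set_option maxHeartbeats 4000000

namespace Pool.Agent.W31.JP

open Finset

theorem main_real {l : ℕ} (hl : 2000 ≤ l) (n : ℕ) (G : SimpleGraph (Fin n))
    [DecidableRel G.Adj]
    (hm : ((Finset.univ : Finset (Fin n × Fin n)).filter
            (fun p => p.1 < p.2 ∧ G.Adj p.1 p.2)).card = l * (2 * l - 1)) :
    ∃ S : Finset (Fin n),
      (((max ((Finset.univ : Finset (Fin n × Fin n)).filter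
          (fun p => p.1 < p.2 ∧ G.Adj p.1 p.2 ∧ p.1 ∈ S ∧ p.2 ∈ S)).card
        ((Finset.univ : Finset (Fin n × Fin n)).filter
          (fun p => p.1 < p.2 ∧ G.Adj p.1 p.2 ∧ p.1 ∉ S ∧ p.2 ∉ S)).card : ℕ) : ℝ)
      < ((l * (2 * l - 1) : ℕ) : ℝ) / 4 + Real.sqrt (((l * (2 * l - 1) : ℕ) : ℝ) / 32)
        - Real.sqrt ((l * (2 * l - 1) : ℕ) : ℝ) / 10000) := by
  set t := l / 2000 with htdef
  have ht : 0 < t := Nat.div_pos hl (by norm_num)
  have h1 : 2000 * t ≤ l := Nat.mul_div_le l 2000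
  have h2 : l < 4000 * t := by
    have : l < 2000 * (t + 1) := by
      have := Nat.lt_mul_div_succ l (show 0 < 2000 by norm_num)
      simpa [htdef] using this
    omega
  obtain ⟨S, hS1, hS2⟩ := main_graph ht h1 n G hm
  refine ⟨S, ?_⟩
  set P := ((Finset.univ : Finset (Fin n × Fin n)).filter
          (fun p => p.1 < p.2 ∧ G.Adj p.1 p.2 ∧ p.1 ∈ S ∧ p.2 ∈ S)).card
  set Q := ((Finset.univ : Finset (Fin n × Fin n)).filter
          (fun p => p.1 < p.2 ∧ G.Adj p.1 p.2 ∧ p.1 ∉ S ∧ p.2 ∉ S)).card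
  have hmax : 2 * max P Q + 2 * t ≤ l ^ 2 := by
    rcases le_total P Q with h | h
    · rw [max_eq_right h]; exact hS2
    · rw [max_eq_left h]; exact hS1
  have hmaxR : 2 * ((max P Q : ℕ) : ℝ) + 2 * (t : ℝ) ≤ (l : ℝ) ^ 2 := by exact_mod_cast hmax
  have hmR : ((l * (2 * l - 1) : ℕ) : ℝ) = (l : ℝ) * (2 * l - 1) := by
    rw [Nat.cast_mul, Nat.cast_sub (by omega)]; push_cast; ring
  rw [hmR]
  have htR : (1 : ℝ) ≤ t := by exact_mod_cast ht
  have hlR : (2000 : ℝ) ≤ l := by exact_mod_cast hl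
  have h2R : (l : ℝ) ≤ 4000 * t := by exact_mod_cast h2.le
  have hs1 : (2 * (l : ℝ) - 1) / 8 ≤ Real.sqrt ((l : ℝ) * (2 * l - 1) / 32) := by
    apply Real.le_sqrt_of_sq_le
    nlinarith
  have hs2 : Real.sqrt ((l : ℝ) * (2 * l - 1)) ≤ 3 / 2 * l := by
    rw [show (3 / 2 * (l : ℝ)) = Real.sqrt ((3 / 2 * (l : ℝ)) ^ 2) from
      (Real.sqrt_sq (by positivity)).symm]
    apply Real.sqrt_le_sqrt
    nlinarith
  linarith

end Pool.Agent.W31.JP
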