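import Mathlib

set_option autoImplicit false
set_option linter.unusedSectionVars false

namespace Pool.Agent.W31.JP

open Finset

variable {V : Type*} [DecidableEq V]

/-- Ordered edge count between two vertex sets. -/
def E (a : V → V → ℤ) (X Y : Finset V) : ℤ := ∑ x ∈ X, ∑ y ∈ Y, a x y

/-- Basic assumptions on an adjacency function. -/
structure Adj01 (a : V → V → ℤ) : Prop where
  symm : ∀ x y, a x y = a y x
  diag : ∀ x, a x x = 0
  zo : ∀ x y, a x y = 0 ∨ a x y = 1

theorem Adj01.nonneg {a : V → V → ℤ} (h : Adj01 a) (x y : V) : 0 ≤ a x y := by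
  rcases h.zo x y with h | h <;> omega

theorem Adj01.le_one {a : V → V → ℤ} (h : Adj01 a) (x y : V) : a x y ≤ 1 := by
  rcases h.zo x y with h | h <;> omega

theorem E_union_left (a : V → V → ℤ) {X X' : Finset V} (Y : Finset V) (hd : Disjoint X X') :
    E a (X ∪ X') Y = E a X Y + E a X' Y := by
  unfold E; rw [Finset.sum_union hd]

theorem E_union_right (a : V → V → ℤ) (X : Finset V) {Y Y' : Finset V} (hd : Disjoint Y Y') :
    E a X (Y ∪ Y') = E a X Y + E a X Y' := by
  unfold E; rw [← Finset.sum_add_distrib]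
  refine Finset.sum_congr rfl fun x _ => ?_
  rw [Finset.sum_union hd]

theorem E_comm {a : V → V → ℤ} (h : Adj01 a) (X Y : Finset V) : E a X Y = E a Y X := by
  unfold E; rw [Finset.sum_comm]
  refine Finset.sum_congr rfl fun x _ => Finset.sum_congr rfl fun y _ => h.symm _ _

theorem E_nonneg {a : V → V → ℤ} (h : Adj01 a) (X Y : Finset V) : 0 ≤ E a X Y :=
  Finset.sum_nonneg fun x _ => Finset.sum_nonneg fun y _ => h.nonneg x y

theorem E_mono {a : V → V → ℤ} (h : Adj01 a) {X X' Y Y' : Finset V} (hX : X ⊆ X') (hY : Y ⊆ Y') :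
    E a X Y ≤ E a X' Y' := by
  unfold E
  calc ∑ x ∈ X, ∑ y ∈ Y, a x y ≤ ∑ x ∈ X, ∑ y ∈ Y', a x y :=
        Finset.sum_le_sum fun x _ => Finset.sum_le_sum_of_subset_of_nonneg hY
          (fun y _ _ => h.nonneg x y)
    _ ≤ ∑ x ∈ X', ∑ y ∈ Y', a x y := Finset.sum_le_sum_of_subset_of_nonneg hX
          (fun x _ _ => Finset.sum_nonneg fun y _ => h.nonneg x y)

theorem E_le_mul {a : V → V → ℤ} (h : Adj01 a) (X Y : Finset V) :
    E a X Y ≤ (X.card : ℤ) * Y.card := by
  unfold E
  calc ∑ x ∈ X, ∑ y ∈ Y, a x y ≤ ∑ x ∈ X, ∑ y ∈ Y, (1 : ℤ) :=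
        Finset.sum_le_sum fun x _ => Finset.sum_le_sum fun y _ => h.le_one x y
    _ = _ := by simp

theorem E_single_left (a : V → V → ℤ) (v : V) (Y : Finset V) :
    E a {v} Y = ∑ y ∈ Y, a v y := by simp [E]

theorem E_eq_sum_left (a : V → V → ℤ) (X Y : Finset V) :
    E a X Y = ∑ x ∈ X, E a {x} Y := by simp [E]

theorem E_empty_left (a : V → V → ℤ) (Y : Finset V) : E a ∅ Y = 0 := by simp [E]

theorem E_empty_right (a : V → V → ℤ) (X : Finset V) : E a X ∅ = 0 := by simp [E]

theorem E_self_le {a : V → V → ℤ} (h : Adj01 a) (X : Finset V) :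
    E a X X ≤ (X.card : ℤ) * (X.card - 1) := by
  rw [E_eq_sum_left]
  calc ∑ x ∈ X, E a {x} X ≤ ∑ x ∈ X, ((X.card : ℤ) - 1) := by
        refine Finset.sum_le_sum fun x hx => ?_
        rw [E_single_left, ← Finset.add_sum_erase X _ hx, h.diag, zero_add]
        calc ∑ y ∈ X.erase x, a x y ≤ ∑ y ∈ X.erase x, (1 : ℤ) :=
              Finset.sum_le_sum fun y _ => h.le_one x y
          _ = (X.card : ℤ) - 1 := by
              rw [Finset.sum_const, Finset.card_erase_of_mem hx]
              have : 1 ≤ X.card := Finset.card_pos.2 ⟨x, hx⟩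
              simp; omega
    _ = _ := by simp; ring

/-- `X` is a clique. -/
def Clq (a : V → V → ℤ) (X : Finset V) : Prop := ∀ x ∈ X, ∀ y ∈ X, x ≠ y → a x y = 1

theorem Clq.mono {a : V → V → ℤ} {X Y : Finset V} (h : Clq a Y) (hs : X ⊆ Y) : Clq a X :=
  fun x hx y hy hxy => h x (hs hx) y (hs hy) hxy

theorem E_clq_disj {a : V → V → ℤ} {K X Y : Finset V} (hK : Clq a K) (hX : X ⊆ K) (hY : Y ⊆ K)
    (hd : Disjoint X Y) : E a X Y = (X.card : ℤ) * Y.card := by
  unfold E
  calc ∑ x ∈ X, ∑ y ∈ Y, a x y = ∑ x ∈ X, ∑ y ∈ Y, (1 : ℤ) := by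
        refine Finset.sum_congr rfl fun x hx => Finset.sum_congr rfl fun y hy => ?_
        exact hK x (hX hx) y (hY hy) (fun e => (Finset.disjoint_left.1 hd) hx (e ▸ hy))
    _ = _ := by simp

theorem E_clq_self {a : V → V → ℤ} (h : Adj01 a) {X : Finset V} (hK : Clq a X) :
    E a X X = (X.card : ℤ) * (X.card - 1) := by
  rw [E_eq_sum_left]
  calc ∑ x ∈ X, E a {x} X = ∑ x ∈ X, ((X.card : ℤ) - 1) := by
        refine Finset.sum_congr rfl fun x hx => ?_
        rw [E_single_left, ← Finset.add_sum_erase X _ hx, h.diag, zero_add]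
        calc ∑ y ∈ X.erase x, a x y = ∑ y ∈ X.erase x, (1 : ℤ) :=
              Finset.sum_congr rfl fun y hy => hK x hx y (Finset.mem_of_mem_erase hy)
                (Finset.ne_of_mem_erase hy).symm
          _ = (X.card : ℤ) - 1 := by
              rw [Finset.sum_const, Finset.card_erase_of_mem hx]
              have : 1 ≤ X.card := Finset.card_pos.2 ⟨x, hx⟩
              simp; omega
    _ = _ := by simp; ring

/-- `X` has a cut with surplus at least `c / 4`. -/
def HC (a : V → V → ℤ) (X : Finset V) (c : ℤ) : Prop :=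
  ∃ S ⊆ X, E a X X + c ≤ 4 * E a S (X \ S)

theorem HC.mono {a : V → V → ℤ} {X : Finset V} {c c' : ℤ} (h : HC a X c) (hc : c' ≤ c) :
    HC a X c' := by
  obtain ⟨S, hS, h⟩ := h
  exact ⟨S, hS, by omega⟩

theorem HC.union {a : V → V → ℤ} (ha : Adj01 a) {X Y : Finset V} {c c' : ℤ}
    (hd : Disjoint X Y) (hX : HC a X c) (hY : HC a Y c') : HC a (X ∪ Y) (c + c') := by
  obtain ⟨S, hS, h1⟩ := hX
  obtain ⟨T, hT, h2⟩ := hY
  -- decompositions
  have dS : Disjoint S (X \ S) := Finset.disjoint_sdiff
  have dT : Disjoint T (Y \ T) := Finset.disjoint_sdiff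
  have uS : S ∪ (X \ S) = X := Finset.union_sdiff_of_subset hS
  have uT : T ∪ (Y \ T) = Y := Finset.union_sdiff_of_subset hT
  have dST : Disjoint S T := hd.mono hS hT
  have dST' : Disjoint S (Y \ T) := hd.mono hS Finset.sdiff_subset
  have dS'T : Disjoint (X \ S) T := hd.mono Finset.sdiff_subset hT
  have dS'T' : Disjoint (X \ S) (Y \ T) := hd.mono Finset.sdiff_subset Finset.sdiff_subset
  have hXY : E a X Y = E a S T + E a S (Y \ T) + E a (X \ S) T + E a (X \ S) (Y \ T) := by
    conv_lhs => rw [← uS, ← uT]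
    rw [E_union_left a _ dS, E_union_right a _ dT, E_union_right a _ dT]; ring
  have hbig : E a (X ∪ Y) (X ∪ Y) = E a X X + E a Y Y + 2 * E a X Y := by
    rw [E_union_left a _ hd, E_union_right a _ hd, E_union_right a _ hd, E_comm ha Y X]; ring
  have c1 : E a (S ∪ T) ((X ∪ Y) \ (S ∪ T)) =
      E a S (X \ S) + E a T (Y \ T) + E a S (Y \ T) + E a (X \ S) T := by
    have e : (X ∪ Y) \ (S ∪ T) = (X \ S) ∪ (Y \ T) := by
      ext z
      simp only [Finset.mem_sdiff, Finset.mem_union, not_or]
      constructor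
      · rintro ⟨h | h, h3, h4⟩
        · exact Or.inl ⟨h, h3⟩
        · exact Or.inr ⟨h, h4⟩
      · rintro (⟨h, h3⟩ | ⟨h, h4⟩)
        · exact ⟨Or.inl h, h3, fun h5 => (Finset.disjoint_left.1 hd) h (hT h5)⟩
        · exact ⟨Or.inr h, fun h5 => (Finset.disjoint_left.1 hd) (hS h5) h, h4⟩
    rw [e, E_union_left a _ dST, E_union_right a _ dS'T', E_union_right a _ dS'T',
      E_comm ha T (X \ S)]; ring
  have c2 : E a (S ∪ (Y \ T)) ((X ∪ Y) \ (S ∪ (Y \ T))) =
      E a S (X \ S) + E a T (Y \ T) + E a S T + E a (X \ S) (Y \ T) := by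
    have e : (X ∪ Y) \ (S ∪ (Y \ T)) = (X \ S) ∪ T := by
      ext z
      simp only [Finset.mem_sdiff, Finset.mem_union, not_or, not_and, not_not]
      constructor
      · rintro ⟨h | h, h3, h4⟩
        · exact Or.inl ⟨h, h3⟩
        · exact Or.inr (h4 h)
      · rintro (⟨h, h3⟩ | h)
        · exact ⟨Or.inl h, h3, fun h5 => absurd h5 ((Finset.disjoint_left.1 hd) h)⟩
        · exact ⟨Or.inr (hT h), fun h5 => (Finset.disjoint_left.1 hd) (hS h5) (hT h), fun _ => h⟩
    rw [e, E_union_left a _ dST', E_union_right a _ dS'T, E_union_right a _ dS'T,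
      E_comm ha (Y \ T) (X \ S), E_comm ha (Y \ T) T]; ring
  by_cases hc : E a S (Y \ T) + E a (X \ S) T ≥ E a S T + E a (X \ S) (Y \ T)
  · refine ⟨S ∪ T, Finset.union_subset_union hS hT, ?_⟩
    rw [c1, hbig]; omega
  · refine ⟨S ∪ (Y \ T), Finset.union_subset_union hS Finset.sdiff_subset, ?_⟩
    rw [c2, hbig]; omega

theorem HC.single {a : V → V → ℤ} (ha : Adj01 a) (v : V) : HC a {v} 0 :=
  ⟨∅, by simp, by simp [E, ha.diag]⟩

theorem HC.zero {a : V → V → ℤ} (ha : Adj01 a) (X : Finset V) : HC a X 0 := by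
  induction X using Finset.induction_on with
  | empty => exact ⟨∅, by simp, by simp [E]⟩
  | insert v X hv ih =>
    have := HC.union ha (c := 0) (c' := 0) (Finset.disjoint_singleton_left.2 hv)
      (HC.single ha v) ih
    rw [Finset.insert_eq]; simpa using this

theorem HC.superset {a : V → V → ℤ} (ha : Adj01 a) {X Y : Finset V} {c : ℤ} (hs : X ⊆ Y)
    (h : HC a X c) : HC a Y c := by
  have := HC.union ha (Finset.disjoint_sdiff : Disjoint X (Y \ X)) h (HC.zero ha (Y \ X))
  rw [Finset.union_sdiff_of_subset hs, add_zero] at this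
  exact this

/-- An even clique. -/
theorem HC.clique {a : V → V → ℤ} (ha : Adj01 a) {K : Finset V} (hK : Clq a K) {r : ℕ}
    (hr : K.card = 2 * r) : HC a K (2 * r) := by
  obtain ⟨S, hS, hSc⟩ := Finset.exists_subset_card_eq (s := K) (n := r) (by omega)
  refine ⟨S, hS, ?_⟩
  rw [E_clq_self ha hK, E_clq_disj hK hS Finset.sdiff_subset Finset.disjoint_sdiff]
  have : (K \ S).card = r := by rw [Finset.card_sdiff_of_subset hS]; omega
  rw [this, hSc, hr]; push_cast; ring_nf; exact le_refl _

/-- Neighbours of `w` in a set. -/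
theorem HC.star {a : V → V → ℤ} (ha : Adj01 a) (w : V) : ∀ (n : ℕ) (A : Finset V), A.card = n →
    w ∉ A → (∀ x ∈ A, a w x = 1) → HC a (insert w A) n := by
  intro n
  induction n using Nat.strong_induction_on with
  | _ n ih =>
    intro A hA hw hadj
    by_cases hedge : ∃ x ∈ A, ∃ y ∈ A, a x y = 1
    · obtain ⟨x, hx, y, hy, hxy⟩ := hedge
      have hne : x ≠ y := by
        rintro rfl; rw [ha.diag] at hxy; omega
      have hsub : ({x, y} : Finset V) ⊆ A := by
        intro z hz; simp at hz; rcases hz with rfl | rfl <;> assumption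
      have hc2 : ({x, y} : Finset V).card = 2 := Finset.card_pair hne
      have hn2 : 2 ≤ n := by
        rw [← hA, ← hc2]; exact Finset.card_le_card hsub
      have hA' : (A \ {x, y}).card = n - 2 := by
        rw [Finset.card_sdiff_of_subset hsub, hA, hc2]
      have h1 := ih (n - 2) (by omega) (A \ {x, y}) hA'
        (fun h => hw (Finset.mem_sdiff.1 h).1) (fun z hz => hadj z (Finset.mem_sdiff.1 hz).1)
      have h2 : HC a ({x, y} : Finset V) (2 * (1 : ℕ)) := by
        refine HC.clique ha ?_ (by simpa using hc2)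
        intro u hu v hv huv
        simp at hu hv
        rcases hu with rfl | rfl <;> rcases hv with rfl | rfl
        · exact absurd rfl huv
        · exact hxy
        · rw [ha.symm]; exact hxy
        · exact absurd rfl huv
      have hd : Disjoint (insert w (A \ {x, y})) ({x, y} : Finset V) := by
        rw [Finset.disjoint_left]
        intro z hz hz2
        simp only [Finset.mem_insert, Finset.mem_sdiff] at hz
        rcases hz with rfl | hz
        · exact hw (hsub hz2)
        · exact hz.2 (by simpa using hz2)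
      have := HC.union ha hd h1 h2
      have e : insert w (A \ {x, y}) ∪ ({x, y} : Finset V) = insert w A := by
        rw [Finset.insert_union, Finset.sdiff_union_of_subset hsub]
      rw [e] at this
      refine this.mono ?_
      push_cast [Nat.cast_sub hn2]; omega
    · push Not at hedge
      have hz : ∀ x ∈ A, ∀ y ∈ A, a x y = 0 := fun x hx y hy => by
        rcases ha.zo x y with h | h
        · exact h
        · exact absurd h (hedge x hx y hy)
      refine ⟨{w}, by simp, ?_⟩
      have e1 : insert w A \ {w} = A := by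
        ext z; simp only [Finset.mem_sdiff, Finset.mem_insert, Finset.mem_singleton]
        constructor
        · rintro ⟨h | h, h2⟩
          · exact absurd h h2
          · exact h
        · intro h; exact ⟨Or.inr h, fun e => hw (e ▸ h)⟩
      have e2 : E a {w} A = n := by
        rw [E_single_left, Finset.sum_congr rfl (fun x hx => hadj x hx)]; simp [hA]
      have e3 : E a A A = 0 := by
        unfold E; exact Finset.sum_eq_zero fun x hx => Finset.sum_eq_zero fun y hy => hz x hx y hy
      have e4 : E a (insert w A) (insert w A) = 2 * n := by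
        have hd : Disjoint ({w} : Finset V) A := Finset.disjoint_singleton_left.2 hw
        rw [Finset.insert_eq, E_union_left a _ hd, E_union_right a _ hd, E_union_right a _ hd,
          E_comm ha A {w}, e2, e3]
        simp [E, ha.diag]; ring
      rw [e1, e2, e4]; omega

end Pool.Agent.W31.JP
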