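import Pool.Agent.W31.JP.Color

set_option autoImplicit false
set_option linter.unusedSectionVars false

namespace Pool.Agent.W31.JP

open Finset

variable {V : Type*} [DecidableEq V]

/-- `U` can be properly coloured with `n` colours. -/
def Col (a : V → V → ℤ) (U : Finset V) (n : ℕ) : Prop :=
  ∃ c : V → ℕ, (∀ x ∈ U, c x < n) ∧ ∀ x ∈ U, ∀ y ∈ U, a x y = 1 → c x ≠ c y

theorem Col.of_card {a : V → V → ℤ} (ha : Adj01 a) {U : Finset V} {n : ℕ} (h : U.card ≤ n) :
    Col a U n := by
  classical
  let e := U.equivFin
  refine ⟨fun x => if hx : x ∈ U then (e ⟨x, hx⟩ : ℕ) else 0, ?_, ?_⟩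
  · intro x hx
    simp only [hx, dif_pos]
    exact lt_of_lt_of_le (e ⟨x, hx⟩).2 h
  · intro x hx y hy hxy
    simp only [hx, hy, dif_pos]
    intro he
    have h1 : e ⟨x, hx⟩ = e ⟨y, hy⟩ := Fin.ext he
    have h2 : x = y := by simpa using e.injective h1
    subst h2
    rw [ha.diag] at hxy; omega

theorem clique_of_not_col {a : V → V → ℤ} (ha : Adj01 a) : ∀ (N : ℕ) (U : Finset V) (n : ℕ),
    U.card = N → ¬ Col a U n → ∃ K ⊆ U, Clq a K ∧ 2 * (n + 1) ≤ K.card + U.card := by
  intro N
  induction N using Nat.strong_induction_on with
  | _ N ih =>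
    intro U n hU hn
    by_cases hcl : Clq a U
    · refine ⟨U, Finset.Subset.refl _, hcl, ?_⟩
      have : ¬ U.card ≤ n := fun h => hn (Col.of_card ha h)
      omega
    · unfold Clq at hcl
      push Not at hcl
      obtain ⟨x, hx, y, hy, hxy, hadj⟩ := hcl
      have hsub : ({x, y} : Finset V) ⊆ U := by
        intro z hz; simp at hz; rcases hz with rfl | rfl <;> assumption
      have hc2 : ({x, y} : Finset V).card = 2 := Finset.card_pair hxy
      have h2 : 2 ≤ U.card := by rw [← hc2]; exact Finset.card_le_card hsub
      have hU' : (U \ {x, y}).card = N - 2 := by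
        rw [Finset.card_sdiff_of_subset hsub, hc2, hU]
      rcases Nat.eq_zero_or_pos n with rfl | hnpos
      · exact ⟨∅, by simp, by intro z hz; simp at hz, by simp; omega⟩
      · have hn' : ¬ Col a (U \ {x, y}) (n - 1) := by
          rintro ⟨c, hc1, hc2'⟩
          apply hn
          refine ⟨fun z => if z = x ∨ z = y then n - 1 else c z, ?_, ?_⟩
          · intro z hz
            by_cases hzz : z = x ∨ z = y
            · simp only [hzz, if_true]; omega
            · simp only [hzz, if_false]
              have := hc1 z (by simp [hz]; tauto)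
              omega
          · intro z hz w hw hzw
            by_cases hzz : z = x ∨ z = y <;> by_cases hww : w = x ∨ w = y
            · exfalso
              rcases hzz with rfl | rfl <;> rcases hww with rfl | rfl
              · rw [ha.diag] at hzw; omega
              · exact hadj hzw
              · rw [ha.symm] at hzw; exact hadj hzw
              · rw [ha.diag] at hzw; omega
            · simp only [hzz, hww, if_true, if_false]
              have := hc1 w (by simp [hw]; tauto)
              omega
            · simp only [hzz, hww, if_true, if_false]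
              have := hc1 z (by simp [hz]; tauto)
              omega
            · simp only [hzz, hww, if_false]
              exact hc2' z (by simp [hz]; tauto) w (by simp [hw]; tauto) hzw
        obtain ⟨K, hKs, hK, hKc⟩ := ih (N - 2) (by omega) (U \ {x, y}) (n - 1) hU' hn'
        refine ⟨K, hKs.trans Finset.sdiff_subset, hK, ?_⟩
        omega

/-- A vertex-minimal non-colourable set has large minimum degree. -/
theorem critical {a : V → V → ℤ} (ha : Adj01 a) {W : Finset V} {n : ℕ} (hW : ¬ Col a W n) :
    ∃ U ⊆ W, ¬ Col a U n ∧ (n : ℤ) * U.card ≤ E a U U := by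
  classical
  obtain ⟨U, hU, hmin⟩ := Finset.exists_min_image (W.powerset.filter (fun U => ¬ Col a U n))
    Finset.card ⟨W, by simp [hW]⟩
  rw [Finset.mem_filter, Finset.mem_powerset] at hU
  refine ⟨U, hU.1, hU.2, ?_⟩
  have hdeg : ∀ v ∈ U, (n : ℤ) ≤ E a {v} U := by
    intro v hv
    by_contra hlt
    push Not at hlt
    have hcol : Col a (U.erase v) n := by
      by_contra hno
      have := hmin (U.erase v) (by
        rw [Finset.mem_filter, Finset.mem_powerset]
        exact ⟨(Finset.erase_subset v U).trans hU.1, hno⟩)
      rw [Finset.card_erase_of_mem hv] at this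
      have : 1 ≤ U.card := Finset.card_pos.2 ⟨v, hv⟩
      omega
    obtain ⟨c, hc1, hc2⟩ := hcol
    -- neighbours of v in U
    set Nb := U.filter (fun y => a v y = 1) with hNb
    have hE : E a {v} U = Nb.card := by
      rw [E_single_left, hNb, Finset.card_filter]
      push_cast
      refine Finset.sum_congr rfl fun y _ => ?_
      rcases ha.zo v y with h | h <;> simp [h]
    have hcard : (Nb.image c).card < (range n).card := by
      rw [Finset.card_range]
      have := Finset.card_image_le (s := Nb) (f := c)
      rw [hE] at hlt
      omega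
    obtain ⟨col, hcol1, hcol2⟩ := Finset.exists_mem_notMem_of_card_lt_card hcard
    apply hU.2
    refine ⟨fun z => if z = v then col else c z, ?_, ?_⟩
    · intro z hz
      by_cases hzv : z = v
      · simp only [hzv, if_true]; exact Finset.mem_range.1 hcol1
      · simp only [hzv, if_false]; exact hc1 z (Finset.mem_erase.2 ⟨hzv, hz⟩)
    · intro z hz w hw hzw
      by_cases hzv : z = v <;> by_cases hwv : w = v
      · subst hzv; subst hwv; rw [ha.diag] at hzw; omega
      · simp only [hzv, hwv, if_true, if_false]
        subst hzv
        intro he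
        exact hcol2 (Finset.mem_image.2 ⟨w, by simp [hNb, hw, hzw], he.symm⟩)
      · simp only [hzv, hwv, if_true, if_false]
        subst hwv
        intro he
        rw [ha.symm] at hzw
        exact hcol2 (Finset.mem_image.2 ⟨z, by simp [hNb, hz, hzw], he⟩)
      · simp only [hzv, hwv, if_false]
        exact hc2 z (Finset.mem_erase.2 ⟨hzv, hz⟩) w (Finset.mem_erase.2 ⟨hwv, hw⟩) hzw
  rw [E_eq_sum_left]
  calc (n : ℤ) * U.card = ∑ x ∈ U, (n : ℤ) := by simp; ring
    _ ≤ _ := Finset.sum_le_sum hdeg

end Pool.Agent.W31.JP
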