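import Pool.Agent.W31.JP.Basic

set_option autoImplicit false
set_option linter.unusedSectionVars false

namespace Pool.Agent.W31.JP

open Finset

variable {V : Type*} [Fintype V] [DecidableEq V]

/-- vertices with colour in `A` -/
def PC (c : V → ℕ) (A : Finset ℕ) : Finset V := univ.filter (fun v => c v ∈ A)

theorem E_PC_right (a : V → V → ℤ) (c : V → ℕ) (A : Finset ℕ) (X : Finset V) :
    E a X (PC c A) = ∑ i ∈ A, E a X (PC c {i}) := by
  unfold E PC
  symm
  rw [Finset.sum_comm]
  refine Finset.sum_congr rfl fun x _ => ?_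
  have h := Finset.sum_fiberwise_of_maps_to (s := univ.filter (fun v => c v ∈ A)) (t := A)
    (g := c) (fun v hv => (Finset.mem_filter.1 hv).2) (fun v => a x v)
  rw [← h]
  refine Finset.sum_congr rfl fun i hi => ?_
  rw [Finset.filter_filter]
  refine Finset.sum_congr ?_ fun _ _ => rfl
  ext v
  simp only [Finset.mem_filter, Finset.mem_univ, true_and, Finset.mem_singleton]
  constructor
  · intro h2; exact ⟨by rw [h2]; exact hi, h2⟩
  · rintro ⟨_, h2⟩; exact h2

theorem color_bound {a : V → V → ℤ} (ha : Adj01 a) (h : ℕ) (c : V → ℕ)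
    (hc : ∀ v, c v < 2 * h) (hprop : ∀ u v, a u v = 1 → c u ≠ c v) :
    ∃ S : Finset V, (h : ℤ) * E a univ univ ≤ 2 * (2 * h - 1) * E a S Sᶜ := by
  classical
  obtain ⟨A, hA, hmax⟩ := Finset.exists_max_image ((range (2 * h)).powersetCard h)
    (fun A => E a (PC c A) (PC c A)ᶜ) (Finset.powersetCard_nonempty.2 (by simp; omega))
  rw [Finset.mem_powersetCard] at hA
  obtain ⟨hAs, hAc⟩ := hA
  set B := range (2 * h) \ A with hB
  have hBc : B.card = h := by
    rw [hB, Finset.card_sdiff_of_subset hAs, Finset.card_range]; omega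
  set S := PC c A with hS
  have hSc : Sᶜ = PC c B := by
    ext v; simp only [hS, PC, hB, Finset.mem_compl, Finset.mem_filter, Finset.mem_univ, true_and,
      Finset.mem_sdiff, Finset.mem_range]
    exact ⟨fun h => ⟨hc v, h⟩, fun h => h.2⟩
  have key : ∀ i ∈ A, ∀ j ∈ B, 2 * E a (PC c {i}) (PC c {j}) + E a S (PC c {i}) +
      E a Sᶜ (PC c {j}) ≤ E a S (PC c {j}) + E a Sᶜ (PC c {i}) := by
    intro i hi j hj
    have hjA : j ∉ A := (Finset.mem_sdiff.1 hj).2
    have hjr : j ∈ range (2 * h) := (Finset.mem_sdiff.1 hj).1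
    have hij : i ≠ j := fun e => hjA (e ▸ hi)
    have hA' : insert j (A.erase i) ∈ (range (2 * h)).powersetCard h := by
      rw [Finset.mem_powersetCard]
      constructor
      · intro z hz
        rw [Finset.mem_insert] at hz
        rcases hz with rfl | hz
        · exact hjr
        · exact hAs (Finset.mem_of_mem_erase hz)
      · rw [Finset.card_insert_of_notMem (fun h => hjA (Finset.mem_of_mem_erase h)),
          Finset.card_erase_of_mem hi, hAc]
        have : 1 ≤ A.card := Finset.card_pos.2 ⟨i, hi⟩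
        omega
    have hm := hmax _ hA'
    set Ci := PC c {i} with hCi
    set Cj := PC c {j} with hCj
    have hCiS : Ci ⊆ S := by
      intro v hv; simp only [hCi, PC, Finset.mem_filter, Finset.mem_univ, true_and,
        Finset.mem_singleton] at hv
      simp only [hS, PC, Finset.mem_filter, Finset.mem_univ, true_and]; rw [hv]; exact hi
    have hCjS : Cj ⊆ Sᶜ := by
      intro v hv; simp only [hCj, PC, Finset.mem_filter, Finset.mem_univ, true_and,
        Finset.mem_singleton] at hv
      simp only [hS, PC, Finset.mem_filter, Finset.mem_univ, true_and, Finset.mem_compl]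
      rw [hv]; exact hjA
    have hdS : Disjoint S Sᶜ := disjoint_compl_right
    have e1 : PC c (insert j (A.erase i)) = (S \ Ci) ∪ Cj := by
      ext v
      simp only [hS, hCi, hCj, PC, Finset.mem_filter, Finset.mem_univ, true_and,
        Finset.mem_insert, Finset.mem_erase, Finset.mem_union, Finset.mem_sdiff,
        Finset.mem_singleton]
      tauto
    have e2 : (PC c (insert j (A.erase i)))ᶜ = (Sᶜ \ Cj) ∪ Ci := by
      rw [e1]
      ext v
      have h1 : v ∈ Ci → v ∈ S := fun h => hCiS h
      have h2 : v ∈ Cj → v ∉ S := fun h => by simpa using hCjS h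
      simp only [Finset.mem_compl, Finset.mem_union, Finset.mem_sdiff, not_or, not_and, not_not]
      tauto
    rw [e2, e1] at hm
    have d1 : Disjoint (S \ Ci) Cj := hdS.mono Finset.sdiff_subset hCjS
    have d2 : Disjoint (Sᶜ \ Cj) Ci := (hdS.mono hCiS Finset.sdiff_subset).symm
    have d3 : Disjoint (S \ Ci) Ci := Finset.sdiff_disjoint
    have d4 : Disjoint (Sᶜ \ Cj) Cj := Finset.sdiff_disjoint
    have u3 : (S \ Ci) ∪ Ci = S := Finset.sdiff_union_of_subset hCiS
    have u4 : (Sᶜ \ Cj) ∪ Cj = Sᶜ := Finset.sdiff_union_of_subset hCjS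
    rw [E_union_left a _ d1, E_union_right a _ d2, E_union_right a _ d2] at hm
    have zi : E a Ci Ci = 0 := by
      unfold E
      refine Finset.sum_eq_zero fun x hx => Finset.sum_eq_zero fun y hy => ?_
      simp only [hCi, PC, Finset.mem_filter, Finset.mem_univ, true_and,
        Finset.mem_singleton] at hx hy
      rcases ha.zo x y with h | h
      · exact h
      · exact absurd (hx.trans hy.symm) (hprop x y h)
    have zj : E a Cj Cj = 0 := by
      unfold E
      refine Finset.sum_eq_zero fun x hx => Finset.sum_eq_zero fun y hy => ?_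
      simp only [hCj, PC, Finset.mem_filter, Finset.mem_univ, true_and,
        Finset.mem_singleton] at hx hy
      rcases ha.zo x y with h | h
      · exact h
      · exact absurd (hx.trans hy.symm) (hprop x y h)
    have f1 : E a S Sᶜ = E a (S \ Ci) (Sᶜ \ Cj) + E a (S \ Ci) Cj + E a Ci (Sᶜ \ Cj) +
        E a Ci Cj := by
      have t1 := E_union_left a Sᶜ d3
      rw [u3] at t1
      have t2 := E_union_right a (S \ Ci) d4
      rw [u4] at t2
      have t3 := E_union_right a Ci d4
      rw [u4] at t3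
      rw [t1, t2, t3]; ring
    have f2 : E a S Ci = E a (S \ Ci) Ci := by
      have t1 := E_union_left a Ci d3
      rw [u3] at t1
      rw [t1, zi, add_zero]
    have f3 : E a Sᶜ Cj = E a Cj (Sᶜ \ Cj) := by
      have t1 := E_union_left a Cj d4
      rw [u4] at t1
      rw [t1, zj, add_zero, E_comm ha]
    have f4 : E a S Cj = E a (S \ Ci) Cj + E a Ci Cj := by
      have t1 := E_union_left a Cj d3
      rw [u3] at t1
      rw [t1]
    have f5 : E a Sᶜ Ci = E a Ci (Sᶜ \ Cj) + E a Ci Cj := by
      have t1 := E_union_left a Ci d4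
      rw [u4] at t1
      rw [t1, E_comm ha (Sᶜ \ Cj) Ci, E_comm ha Cj Ci]
    have f6 := E_comm ha Ci Cj
    rw [f2, f3, f4, f5]
    rw [f1] at hm
    linarith
  have hsum := Finset.sum_le_sum fun i (hi : i ∈ A) => Finset.sum_le_sum fun j (hj : j ∈ B) =>
    key i hi j hj
  simp only [Finset.sum_add_distrib, ← Finset.mul_sum, Finset.sum_const, nsmul_eq_mul] at hsum
  rw [hAc, hBc] at hsum
  have g1 : ∑ i ∈ A, E a S (PC c {i}) = E a S S := by rw [← E_PC_right, ← hS]
  have g2 : ∑ j ∈ B, E a Sᶜ (PC c {j}) = E a Sᶜ Sᶜ := by rw [← E_PC_right, ← hSc]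
  have g3 : ∑ j ∈ B, E a S (PC c {j}) = E a S Sᶜ := by rw [← E_PC_right, ← hSc]
  have g4 : ∑ i ∈ A, E a Sᶜ (PC c {i}) = E a Sᶜ S := by rw [← E_PC_right, ← hS]
  have g5 : ∑ i ∈ A, ∑ j ∈ B, E a (PC c {i}) (PC c {j}) = E a S Sᶜ := by
    have : ∀ i ∈ A, ∑ j ∈ B, E a (PC c {i}) (PC c {j}) = E a Sᶜ (PC c {i}) := by
      intro i _
      rw [← E_PC_right, ← hSc, E_comm ha]
    rw [Finset.sum_congr rfl this, g4, E_comm ha]
  rw [g1, g2, g3, g4, g5] at hsum
  have htot : E a univ univ = E a S S + E a Sᶜ Sᶜ + 2 * E a S Sᶜ := by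
    have hdS : Disjoint S Sᶜ := disjoint_compl_right
    have hu : S ∪ Sᶜ = univ := Finset.union_compl S
    have t1 := E_union_left a univ hdS
    have t2 := E_union_right a S hdS
    have t3 := E_union_right a Sᶜ hdS
    rw [hu] at t1 t2 t3
    rw [t1, t2, t3, E_comm ha Sᶜ S]; ring
  refine ⟨S, ?_⟩
  rw [htot]
  rw [E_comm ha Sᶜ S] at hsum
  nlinarith [hsum]

end Pool.Agent.W31.JP
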