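import Pool.Agent.W31.JP.Fin2

set_option autoImplicit false
set_option linter.unusedSectionVars false
set_option maxHeartbeats 4000000

namespace Pool.Agent.W31.JP

open Finset

/-- Integer adjacency function of a graph. -/
def adjf {n : ℕ} (G : SimpleGraph (Fin n)) [DecidableRel G.Adj] (x y : Fin n) : ℤ :=
  if G.Adj x y then 1 else 0

theorem adjf_adj {n : ℕ} (G : SimpleGraph (Fin n)) [DecidableRel G.Adj] : Adj01 (adjf G) where
  symm := by
    intro x y
    unfold adjf
    by_cases h : G.Adj x y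
    · rw [if_pos h, if_pos h.symm]
    · rw [if_neg h, if_neg (fun h' => h h'.symm)]
  diag := by intro x; simp [adjf]
  zo := by
    intro x y
    unfold adjf
    by_cases h : G.Adj x y <;> simp [h]

theorem E_count {n : ℕ} (G : SimpleGraph (Fin n)) [DecidableRel G.Adj] (S : Finset (Fin n)) :
    E (adjf G) S S = 2 * (((Finset.univ : Finset (Fin n × Fin n)).filter
      (fun p => p.1 < p.2 ∧ G.Adj p.1 p.2 ∧ p.1 ∈ S ∧ p.2 ∈ S)).card : ℤ) := by
  set P := (Finset.univ : Finset (Fin n × Fin n)).filter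
      (fun p => p.1 < p.2 ∧ G.Adj p.1 p.2 ∧ p.1 ∈ S ∧ p.2 ∈ S) with hP
  set Q := (Finset.univ : Finset (Fin n × Fin n)).filter
      (fun p => p.2 < p.1 ∧ G.Adj p.1 p.2 ∧ p.1 ∈ S ∧ p.2 ∈ S) with hQ
  have hPQ : Q.card = P.card := by
    refine Finset.card_bij' (fun p _ => (p.2, p.1)) (fun p _ => (p.2, p.1)) ?_ ?_ ?_ ?_
    · intro p hp
      simp only [hQ, hP, Finset.mem_filter, Finset.mem_univ, true_and] at hp ⊢
      exact ⟨hp.1, hp.2.1.symm, hp.2.2.2, hp.2.2.1⟩
    · intro p hp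
      simp only [hQ, hP, Finset.mem_filter, Finset.mem_univ, true_and] at hp ⊢
      exact ⟨hp.1, hp.2.1.symm, hp.2.2.2, hp.2.2.1⟩
    · intro p _; rfl
    · intro p _; rfl
  have hd : Disjoint P Q := by
    rw [Finset.disjoint_left]
    intro p hp hq
    simp only [hQ, hP, Finset.mem_filter, Finset.mem_univ, true_and] at hp hq
    exact absurd hp.1 (not_lt.2 hq.1.le)
  have hu : P ∪ Q = (S ×ˢ S).filter (fun p => G.Adj p.1 p.2) := by
    ext p
    simp only [hQ, hP, Finset.mem_filter, Finset.mem_univ, true_and, Finset.mem_union,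
      Finset.mem_product]
    constructor
    · rintro (h | h)
      · exact ⟨h.2.2, h.2.1⟩
      · exact ⟨h.2.2, h.2.1⟩
    · rintro ⟨h1, h2⟩
      rcases lt_trichotomy p.1 p.2 with h | h | h
      · exact Or.inl ⟨h, h2, h1⟩
      · exact absurd h (G.ne_of_adj h2)
      · exact Or.inr ⟨h, h2, h1⟩
  have hE : E (adjf G) S S = (((S ×ˢ S).filter (fun p => G.Adj p.1 p.2)).card : ℤ) := by
    unfold E adjf
    rw [Finset.card_filter, Finset.sum_product]
    push_cast
    rfl
  rw [hE, ← hu, Finset.card_union_of_disjoint hd, hPQ]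
  push_cast; ring

/-- Graph version of the integer statement. -/
theorem main_graph {l t : ℕ} (ht : 0 < t) (hl : 2000 * t ≤ l) (n : ℕ) (G : SimpleGraph (Fin n))
    [DecidableRel G.Adj]
    (hm : ((Finset.univ : Finset (Fin n × Fin n)).filter
            (fun p => p.1 < p.2 ∧ G.Adj p.1 p.2)).card = l * (2 * l - 1)) :
    ∃ S : Finset (Fin n),
      2 * ((Finset.univ : Finset (Fin n × Fin n)).filter
          (fun p => p.1 < p.2 ∧ G.Adj p.1 p.2 ∧ p.1 ∈ S ∧ p.2 ∈ S)).card + 2 * t ≤ l ^ 2 ∧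
      2 * ((Finset.univ : Finset (Fin n × Fin n)).filter
          (fun p => p.1 < p.2 ∧ G.Adj p.1 p.2 ∧ p.1 ∉ S ∧ p.2 ∉ S)).card + 2 * t ≤ l ^ 2 := by
  have h0 : E (adjf G) univ univ = 2 * (l : ℤ) * (2 * l - 1) := by
    rw [E_count]
    simp only [Finset.mem_univ, and_true]
    rw [hm]
    have : ((l * (2 * l - 1) : ℕ) : ℤ) = l * (2 * l - 1) := by
      rw [Nat.cast_mul, Nat.cast_sub (by omega)]; push_cast; ring
    rw [this]; ring
  obtain ⟨S, h1, h2⟩ := main_int (adjf_adj G) ht hl h0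
  refine ⟨S, ?_, ?_⟩
  · rw [E_count] at h1
    zify
    linarith
  · rw [E_count] at h2
    simp only [Finset.mem_compl] at h2
    zify
    linarith

end Pool.Agent.W31.JP
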