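import Pool.Agent.W31.JP.Basic

set_option autoImplicit false
set_option linter.unusedSectionVars false

namespace Pool.Agent.W31.JP

open Finset

variable {V : Type*} [Fintype V] [DecidableEq V]

theorem E_tot {a : V → V → ℤ} (ha : Adj01 a) (U : Finset V) :
    E a univ univ = E a U U + E a Uᶜ Uᶜ + 2 * E a U Uᶜ := by
  have hdS : Disjoint U Uᶜ := disjoint_compl_right
  have hu : U ∪ Uᶜ = univ := Finset.union_compl U
  have t1 := E_union_left a univ hdS
  have t2 := E_union_right a U hdS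
  have t3 := E_union_right a Uᶜ hdS
  rw [hu] at t1 t2 t3
  rw [t1, t2, t3, E_comm ha Uᶜ U]; ring

theorem move_in {a : V → V → ℤ} (ha : Adj01 a) {U X : Finset V} (hX : X ⊆ U) :
    E a (U \ X) (U \ X) = E a U U - 2 * E a X U + E a X X := by
  have d : Disjoint X (U \ X) := Finset.disjoint_sdiff
  have u : X ∪ (U \ X) = U := Finset.union_sdiff_of_subset hX
  have t1 := E_union_left a U d
  have t2 := E_union_right a X d
  have t3 := E_union_right a (U \ X) d
  rw [u] at t1 t2 t3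
  have t4 := E_comm ha (U \ X) X
  linarith

theorem move_out {a : V → V → ℤ} (ha : Adj01 a) {U X : Finset V} (hX : X ⊆ U) :
    E a (U \ X)ᶜ (U \ X)ᶜ = E a Uᶜ Uᶜ + 2 * E a X Uᶜ + E a X X := by
  have e : (U \ X)ᶜ = Uᶜ ∪ X := by
    ext z; simp only [Finset.mem_compl, Finset.mem_sdiff, Finset.mem_union, not_and, not_not]
    tauto
  have d : Disjoint Uᶜ X := (disjoint_compl_right.mono_left hX).symm
  rw [e, E_union_left a _ d, E_union_right a _ d, E_union_right a _ d, E_comm ha Uᶜ X]; ring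

theorem move_cut {a : V → V → ℤ} (ha : Adj01 a) {U X : Finset V} (hX : X ⊆ U) :
    E a (U \ X) (U \ X)ᶜ = E a U Uᶜ - E a X Uᶜ + E a X U - E a X X := by
  have h1 := E_tot ha U
  have h2 := E_tot ha (U \ X)
  have h3 := move_in ha hX
  have h4 := move_out ha hX
  linarith

theorem greedy (f : V → ℤ) (c : ℤ) : ∀ L : Finset V, (∀ v ∈ L, 2 * f v < c) →
    c ≤ ∑ v ∈ L, f v → 0 < c → ∃ X ⊆ L, c ≤ ∑ v ∈ X, f v ∧ 2 * ∑ v ∈ X, f v < 3 * c := by
  intro L
  induction L using Finset.induction_on with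
  | empty => intro _ h hc; simp at h; omega
  | insert v L hv ih =>
    intro hf hs hc
    by_cases h : c ≤ ∑ v ∈ L, f v
    · obtain ⟨X, hX, h1, h2⟩ := ih (fun w hw => hf w (Finset.mem_insert_of_mem hw)) h hc
      exact ⟨X, hX.trans (Finset.subset_insert _ _), h1, h2⟩
    · refine ⟨insert v L, Finset.Subset.refl _, hs, ?_⟩
      rw [Finset.sum_insert hv]
      have := hf v (Finset.mem_insert_self _ _)
      push Not at h
      omega

theorem lemmaB {a : V → V → ℤ} (ha : Adj01 a) {l t : ℤ} (ht : 0 < t) (hl : 20 * t ≤ l)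
    (hm : E a univ univ = 2 * l * (2 * l - 1)) (hcut : ∃ S, l ^ 2 + 3 * t ≤ E a S Sᶜ) :
    ∃ S, E a S S ≤ l ^ 2 - 2 * t ∧ E a Sᶜ Sᶜ ≤ l ^ 2 - 2 * t := by
  classical
  by_contra hno
  push Not at hno
  obtain ⟨S0, -, hmax⟩ := Finset.exists_max_image (univ : Finset (Finset V))
    (fun S => E a S Sᶜ) ⟨∅, by simp⟩
  have hS0 : l ^ 2 + 3 * t ≤ E a S0 S0ᶜ := by
    obtain ⟨S, hS⟩ := hcut
    exact hS.trans (hmax S (Finset.mem_univ _))
  -- choose the heavy side
  obtain ⟨V1, hV1, hV1max, hV1cut⟩ : ∃ V1 : Finset V, l ^ 2 - 2 * t < E a V1 V1 ∧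
      (∀ T : Finset V, E a T Tᶜ ≤ E a V1 V1ᶜ) ∧ l ^ 2 + 3 * t ≤ E a V1 V1ᶜ := by
    by_cases h : E a S0 S0 ≤ l ^ 2 - 2 * t
    · refine ⟨S0ᶜ, hno S0 h, ?_, ?_⟩
      · intro T
        rw [compl_compl, E_comm ha S0ᶜ S0]; exact hmax T (Finset.mem_univ _)
      · rw [compl_compl, E_comm ha S0ᶜ S0]; exact hS0
    · push Not at h
      exact ⟨S0, h, fun T => hmax T (Finset.mem_univ _), hS0⟩
  have hopt : ∀ v ∈ V1, E a {v} V1 ≤ E a {v} V1ᶜ := by
    intro v hv
    have h1 := move_cut ha (Finset.singleton_subset_iff.2 hv)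
    have h2 := hV1max (V1 \ {v})
    have h3 : E a ({v} : Finset V) {v} = 0 := by simp [E, ha.diag]
    linarith
  obtain ⟨U, hU, hmin⟩ := Finset.exists_min_image
    (V1.powerset.filter (fun U => l ^ 2 - 2 * t < E a U U ∧ l ^ 2 + 3 * t ≤ E a U Uᶜ))
    Finset.card ⟨V1, by simp [hV1, hV1cut]⟩
  rw [Finset.mem_filter, Finset.mem_powerset] at hU
  obtain ⟨hUV, hUa, hUc⟩ := hU
  have hdd : ∀ v ∈ U, E a {v} U ≤ E a {v} Uᶜ := by
    intro v hv
    calc E a {v} U ≤ E a {v} V1 := E_mono ha (Finset.Subset.refl _) hUV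
      _ ≤ E a {v} V1ᶜ := hopt v (hUV hv)
      _ ≤ E a {v} Uᶜ := E_mono ha (Finset.Subset.refl _) (Finset.compl_subset_compl.2 hUV)
  have htot := E_tot ha U
  rw [hm] at htot
  set al := E a U U with hal
  set be := E a Uᶜ Uᶜ with hbe
  set ga := E a U Uᶜ with hga
  obtain ⟨a2, ha2⟩ : ∃ a2, a2 = al - (l ^ 2 - 2 * t) := ⟨_, rfl⟩
  obtain ⟨lam, hlam⟩ : ∃ lam, lam = ga - l ^ 2 := ⟨_, rfl⟩
  have ha2pos : 0 < a2 := by omega
  have hlam3 : 3 * t ≤ lam := by omega
  have hD : l ^ 2 - 2 * t - be = 2 * l - 4 * t + a2 + 2 * lam := by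
    have : 2 * l * (2 * l - 1) = 4 * l ^ 2 - 2 * l := by ring
    rw [this] at htot
    omega
  have hsumd1 : ∑ v ∈ U, E a {v} U = al := (E_eq_sum_left a U U).symm
  have hsumd2 : ∑ v ∈ U, E a {v} Uᶜ = ga := (E_eq_sum_left a U Uᶜ).symm
  have hzeta : ∑ v ∈ U, (E a {v} Uᶜ - E a {v} U) = lam + 2 * t - a2 := by
    rw [Finset.sum_sub_distrib, hsumd1, hsumd2]; omega
  have hzpos : ∀ v ∈ U, 0 ≤ E a {v} Uᶜ - E a {v} U := fun v hv => by
    have := hdd v hv; omega
  set B := U.filter (fun v => a2 ≤ 2 * E a {v} U) with hB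
  set L := U.filter (fun v => ¬ a2 ≤ 2 * E a {v} U) with hL
  have hBU : B ⊆ U := Finset.filter_subset _ _
  have hLU : L ⊆ U := Finset.filter_subset _ _
  have hdBL : Disjoint B L := Finset.disjoint_filter_filter_not _ _ _
  have huBL : B ∪ L = U := Finset.filter_union_filter_not_eq _ _
  have hself : ∀ v, E a ({v} : Finset V) {v} = 0 := fun v => by simp [E, ha.diag]
  have hBd : ∀ v ∈ B, l ^ 2 - 2 * t - be ≤ 2 * E a {v} Uᶜ := by
    intro v hv
    rw [hB, Finset.mem_filter] at hv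
    have h1 := move_in ha (Finset.singleton_subset_iff.2 hv.1)
    have h2 := move_out ha (Finset.singleton_subset_iff.2 hv.1)
    rw [hself] at h1 h2
    have h3 := hno (U \ {v}) (by rw [h1]; omega)
    rw [h2] at h3
    omega
  have hLd : ∀ v ∈ L, lam - 3 * t < E a {v} Uᶜ - E a {v} U := by
    intro v hv
    rw [hL, Finset.mem_filter] at hv
    obtain ⟨hvU, hv2⟩ := hv
    push Not at hv2
    have h1 := move_in ha (Finset.singleton_subset_iff.2 hvU)
    have h2 := move_cut ha (Finset.singleton_subset_iff.2 hvU)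
    rw [hself] at h1 h2
    by_contra hcon
    push Not at hcon
    have h3 := hmin (U \ {v}) (by
      rw [Finset.mem_filter, Finset.mem_powerset]
      refine ⟨Finset.sdiff_subset.trans hUV, ?_, ?_⟩
      · rw [h1]; omega
      · rw [h2]; omega)
    rw [Finset.card_sdiff_of_subset (Finset.singleton_subset_iff.2 hvU),
      Finset.card_singleton] at h3
    have : 1 ≤ U.card := Finset.card_pos.2 ⟨v, hvU⟩
    omega
  obtain ⟨b, hb⟩ : ∃ b : ℤ, b = B.card := ⟨_, rfl⟩
  have hb0 : 0 ≤ b := by rw [hb]; positivity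
  have F1 : b * (l ^ 2 - 2 * t - be) ≤ 2 * ga := by
    have h1 : ∑ v ∈ B, (l ^ 2 - 2 * t - be) ≤ ∑ v ∈ B, 2 * E a {v} Uᶜ :=
      Finset.sum_le_sum hBd
    have h2 : ∑ v ∈ B, E a {v} Uᶜ ≤ ∑ v ∈ U, E a {v} Uᶜ :=
      Finset.sum_le_sum_of_subset_of_nonneg hBU (fun v _ _ => E_nonneg ha _ _)
    rw [Finset.sum_const, nsmul_eq_mul, ← hb, ← Finset.mul_sum] at h1
    rw [hsumd2] at h2
    linarith
  have F2 : al ≤ b * (b - 1) + 2 * ∑ v ∈ L, E a {v} U := by
    have h1 : al = E a B U + E a L U := by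
      have := E_union_left a U hdBL
      rw [huBL] at this; exact this
    have h2 : E a B U = E a B B + E a B L := by
      have := E_union_right a B hdBL
      rw [huBL] at this; exact this
    have h3 : E a B L ≤ E a L U := by
      rw [E_comm ha B L]; exact E_mono ha (Finset.Subset.refl _) hBU
    have h4 := E_self_le ha B
    rw [← hb] at h4
    rw [← E_eq_sum_left]
    linarith
  rw [hD] at F1
  rcases lt_or_ge (8 * t) lam with hcase | hcase
  · -- Case 1
    have hLc : 2 * ∑ v ∈ L, E a {v} U < a2 := by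
      by_cases hL2 : 2 ≤ L.card
      · exfalso
        obtain ⟨u, hu, v, hv, huv⟩ := Finset.one_lt_card.1 hL2
        have h1 : ∑ x ∈ ({u, v} : Finset V), (E a {x} Uᶜ - E a {x} U) ≤
            ∑ x ∈ U, (E a {x} Uᶜ - E a {x} U) := by
          refine Finset.sum_le_sum_of_subset_of_nonneg ?_ (fun x hx _ => hzpos x hx)
          intro z hz; simp at hz; rcases hz with rfl | rfl
          · exact hLU hu
          · exact hLU hv
        rw [Finset.sum_pair huv, hzeta] at h1
        have h2 := hLd u hu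
        have h3 := hLd v hv
        omega
      · push Not at hL2
        rcases Nat.lt_or_ge L.card 1 with h0 | h1
        · have : L = ∅ := Finset.card_eq_zero.1 (by omega)
          rw [this]; simpa using ha2pos
        · obtain ⟨v, hv⟩ := Finset.card_eq_one.1 (show L.card = 1 by omega)
          rw [hv, Finset.sum_singleton]
          have : v ∈ L := by rw [hv]; simp
          rw [hL, Finset.mem_filter] at this
          omega
    have h1 : l ^ 2 - 2 * t < b * (b - 1) := by omega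
    have h2 : l + 1 ≤ b := by
      by_contra hcon
      push Not at hcon
      have : b ≤ l := by omega
      nlinarith
    have h3 : (l + 1) * (2 * l - 4 * t + a2 + 2 * lam) ≤ b * (2 * l - 4 * t + a2 + 2 * lam) :=
      mul_le_mul_of_nonneg_right h2 (by omega)
    have h4 : ga = l ^ 2 + lam := by omega
    rw [h4] at F1
    nlinarith
  · -- Case 2
    have hz0 : 0 ≤ lam + 2 * t - a2 := by
      rw [← hzeta]; exact Finset.sum_nonneg hzpos
    have h4 : ga = l ^ 2 + lam := by omega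
    rw [h4] at F1
    have h2 : b ≤ l := by
      by_contra hcon
      push Not at hcon
      have h3 : (l + 1) * (2 * l - 4 * t + a2 + 2 * lam) ≤ b * (2 * l - 4 * t + a2 + 2 * lam) :=
        mul_le_mul_of_nonneg_right (by omega) (by omega)
      nlinarith
    have h5 : b * (b - 1) ≤ l * (l - 1) := by nlinarith
    have h6 : a2 ≤ ∑ v ∈ L, E a {v} U := by nlinarith
    obtain ⟨X, hX, hX1, hX2⟩ := greedy (fun v => E a {v} U) a2 L (by
      intro v hv
      rw [hL, Finset.mem_filter] at hv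
      omega) h6 ha2pos
    rw [← E_eq_sum_left] at hX1 hX2
    have hXU : X ⊆ U := hX.trans hLU
    have h7 := move_in ha hXU
    have h8 := move_out ha hXU
    have h9 : E a X X ≤ E a X U := E_mono ha (Finset.Subset.refl _) hXU
    have h10 : E a X Uᶜ - E a X U ≤ lam + 2 * t - a2 := by
      rw [← hzeta, E_eq_sum_left a X Uᶜ, E_eq_sum_left a X U, ← Finset.sum_sub_distrib]
      exact Finset.sum_le_sum_of_subset_of_nonneg hXU (fun x hx _ => hzpos x hx)
    have h11 := hno (U \ X) (by rw [h7]; omega)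
    rw [h8] at h11
    omega

end Pool.Agent.W31.JP
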