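import Pool.Agent.W31.JP.Pair
import Pool.Agent.W31.JP.LemB

set_option autoImplicit false
set_option linter.unusedSectionVars false
set_option maxHeartbeats 4000000

namespace Pool.Agent.W31.JP

open Finset

variable {V : Type*} [DecidableEq V]

/-- Adjacency with the complete graph on `F` subtracted. -/
def bb (a : V → V → ℤ) (F : Finset V) (x y : V) : ℤ :=
  a x y - (if x ∈ F ∧ y ∈ F ∧ x ≠ y then 1 else 0)

theorem bb_symm {a : V → V → ℤ} (ha : Adj01 a) (F : Finset V) (x y : V) :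
    bb a F x y = bb a F y x := by
  unfold bb
  rw [ha.symm x y]
  congr 1
  by_cases h : x ∈ F ∧ y ∈ F ∧ x ≠ y
  · rw [if_pos h, if_pos ⟨h.2.1, h.1, h.2.2.symm⟩]
  · rw [if_neg h, if_neg (fun h2 => h ⟨h2.2.1, h2.1, h2.2.2.symm⟩)]

theorem bb_diag {a : V → V → ℤ} (ha : Adj01 a) (F : Finset V) (x : V) : bb a F x x = 0 := by
  unfold bb; rw [ha.diag]; simp

theorem bb_ge {a : V → V → ℤ} (ha : Adj01 a) (F : Finset V) (x y : V) : -1 ≤ bb a F x y := by
  unfold bb
  have := ha.nonneg x y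
  split_ifs <;> omega

theorem bb_nonneg {a : V → V → ℤ} (ha : Adj01 a) (F : Finset V) (x y : V)
    (h : x ∉ F ∨ y ∉ F) : 0 ≤ bb a F x y := by
  unfold bb
  have := ha.nonneg x y
  rw [if_neg (by tauto)]; omega

theorem bb_nonpos {a : V → V → ℤ} (ha : Adj01 a) (F : Finset V) (x y : V)
    (h : x ∈ F) (h' : y ∈ F) : bb a F x y ≤ 0 := by
  by_cases e : x = y
  · rw [e, bb_diag ha]
  · unfold bb
    rw [if_pos ⟨h, h', e⟩]
    have := ha.le_one x y
    omega

theorem bb_le {a : V → V → ℤ} (F : Finset V) (x y : V) : bb a F x y ≤ a x y := by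
  unfold bb
  split_ifs <;> omega

theorem J_adj : Adj01 (fun x y : V => if x ≠ y then (1 : ℤ) else 0) where
  symm := by
    intro x y
    by_cases h : x = y
    · simp [h]
    · simp [h, Ne.symm h]
  diag := by intro x; simp
  zo := by
    intro x y
    by_cases h : x = y <;> simp [h]

theorem E_bb {a : V → V → ℤ} (F A : Finset V) :
    E a A A = ((A ∩ F).card : ℤ) * ((A ∩ F).card - 1) + E (bb a F) A A := by
  have h1 : E (fun x y : V => if x ≠ y then (1 : ℤ) else 0) (A ∩ F) (A ∩ F) =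
      ((A ∩ F).card : ℤ) * ((A ∩ F).card - 1) :=
    E_clq_self J_adj (fun x _ y _ h => by simp [h])
  rw [← h1]
  have h2 : E (fun x y : V => if x ≠ y then (1 : ℤ) else 0) (A ∩ F) (A ∩ F) =
      ∑ x ∈ A, ∑ y ∈ A, (if x ∈ F ∧ y ∈ F ∧ x ≠ y then (1 : ℤ) else 0) := by
    unfold E
    rw [← Finset.filter_mem_eq_inter, Finset.sum_filter]
    refine Finset.sum_congr rfl fun x _ => ?_
    by_cases hx : x ∈ F
    · rw [if_pos hx, Finset.sum_filter]
      refine Finset.sum_congr rfl fun y _ => ?_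
      by_cases hy : y ∈ F
      · by_cases e : x = y <;> simp [hx, hy, e]
      · simp [hy]
    · simp [hx]
  rw [h2]
  unfold E bb
  simp only [Finset.sum_sub_distrib]
  ring

theorem E_bb_le {a : V → V → ℤ} (F A B : Finset V) : E (bb a F) A B ≤ E a A B :=
  Finset.sum_le_sum fun x _ => Finset.sum_le_sum fun y _ => bb_le F x y

/-- One side of the final partition. -/
theorem side {a : V → V → ℤ} (ha : Adj01 a) {K F K1 A : Finset V} (hK : Clq a K)
    (hF1 : ∀ w ∈ F, ∀ v ∈ K, a w v = 1) (hF0 : ∀ w, w ∉ K → w ∉ F → ∀ v ∈ K, a w v = 0)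
    (hK1 : K1 ⊆ K) (hA : Disjoint A K) :
    E a (K1 ∪ A) (K1 ∪ A) =
      ((K1.card : ℤ) + (A ∩ F).card) * ((K1.card : ℤ) + (A ∩ F).card - 1) + E (bb a F) A A := by
  have hd : Disjoint K1 A := (hA.mono_right hK1).symm
  have h1 : E a A K1 = (K1.card : ℤ) * (A ∩ F).card := by
    rw [E_eq_sum_left]
    calc ∑ w ∈ A, E a {w} K1 = ∑ w ∈ A, (if w ∈ F then (K1.card : ℤ) else 0) := by
          refine Finset.sum_congr rfl fun w hw => ?_
          rw [E_single_left]
          by_cases h : w ∈ F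
          · rw [if_pos h]
            calc ∑ y ∈ K1, a w y = ∑ y ∈ K1, (1 : ℤ) :=
                  Finset.sum_congr rfl fun y hy => hF1 w h y (hK1 hy)
              _ = _ := by simp
          · rw [if_neg h]
            exact Finset.sum_eq_zero fun y hy =>
              hF0 w (fun hwK => (Finset.disjoint_left.1 hA) hw hwK) h y (hK1 hy)
      _ = _ := by
          rw [← Finset.sum_filter, Finset.filter_mem_eq_inter, Finset.sum_const]
          simp; ring
  rw [E_union_left a _ hd, E_union_right a _ hd, E_union_right a _ hd, E_comm ha K1 A, h1,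
    E_clq_self ha (hK.mono hK1), E_bb F A]
  ring

variable [Fintype V]

/-- Realising a prescribed number of full vertices on each side. -/
theorem final_split {a : V → V → ℤ} (ha : Adj01 a) {K F A : Finset V} (hK : Clq a K)
    (hF1 : ∀ w ∈ F, ∀ v ∈ K, a w v = 1) (hF0 : ∀ w, w ∉ K → w ∉ F → ∀ v ∈ K, a w v = 0)
    (hFK : F ⊆ Kᶜ) (hA : A ⊆ Kᶜ) (n1 : ℕ) (h1 : (A ∩ F).card ≤ n1) (h2 : n1 ≤ K.card) :
    ∃ S : Finset V, E a S S = (n1 : ℤ) * (n1 - 1) + E (bb a F) A A ∧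
      E a Sᶜ Sᶜ = ((K.card : ℤ) + F.card - n1) * ((K.card : ℤ) + F.card - n1 - 1) +
        E (bb a F) (Kᶜ \ A) (Kᶜ \ A) := by
  obtain ⟨K1, hK1, hK1c⟩ := Finset.exists_subset_card_eq (s := K) (n := n1 - (A ∩ F).card)
    (by omega)
  have hdA : Disjoint A K := by
    rw [Finset.disjoint_left]; intro z hz; exact Finset.mem_compl.1 (hA hz)
  have hdA' : Disjoint (Kᶜ \ A) K := by
    rw [Finset.disjoint_left]; intro z hz; exact Finset.mem_compl.1 (Finset.mem_sdiff.1 hz).1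
  refine ⟨K1 ∪ A, ?_, ?_⟩
  · rw [side ha hK hF1 hF0 hK1 hdA, hK1c]
    have : ((n1 - (A ∩ F).card : ℕ) : ℤ) = n1 - (A ∩ F).card := by
      rw [Nat.cast_sub h1]
    rw [this]; ring
  · have e : (K1 ∪ A)ᶜ = (K \ K1) ∪ (Kᶜ \ A) := by
      ext z
      simp only [Finset.mem_compl, Finset.mem_union, Finset.mem_sdiff, not_or]
      constructor
      · rintro ⟨h3, h4⟩
        by_cases hz : z ∈ K
        · exact Or.inl ⟨hz, h3⟩
        · exact Or.inr ⟨hz, h4⟩
      · rintro (⟨h3, h4⟩ | ⟨h3, h4⟩)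
        · exact ⟨h4, fun h5 => (Finset.disjoint_left.1 hdA) h5 h3⟩
        · exact ⟨fun h5 => h3 (hK1 h5), h4⟩
    rw [e, side ha hK hF1 hF0 Finset.sdiff_subset hdA']
    have c1 : ((K \ K1).card : ℤ) = K.card - (n1 - (A ∩ F).card) := by
      rw [Finset.card_sdiff_of_subset hK1, hK1c, Nat.cast_sub (by omega), Nat.cast_sub h1]
    have c2 : (((Kᶜ \ A) ∩ F).card : ℤ) = F.card - (A ∩ F).card := by
      have : (Kᶜ \ A) ∩ F = F \ (A ∩ F) := by
        ext z
        simp only [Finset.mem_inter, Finset.mem_sdiff, not_and]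
        constructor
        · rintro ⟨⟨_, h4⟩, h5⟩
          exact ⟨h5, fun h6 => absurd h6 h4⟩
        · rintro ⟨h5, h6⟩
          exact ⟨⟨hFK h5, fun h7 => h6 h7 h5⟩, h5⟩
      rw [this, Finset.card_sdiff_of_subset Finset.inter_subset_right, Nat.cast_sub
        (Finset.card_le_card Finset.inter_subset_right)]
    rw [c1, c2]; ring

/-- The split of the rest, `Z` placed inside `A`. -/
theorem balance {a : V → V → ℤ} (ha : Adj01 a) {R F Z : Finset V} {M : ℤ} (hM : 0 ≤ M)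
    (hFR : F ⊆ R) (hg : ∀ w ∈ R, |E (bb a F) {w} R| ≤ M) (hZ : Z ⊆ R) :
    ∃ A ⊆ R, ∃ D : ℤ,
      4 * E (bb a F) A A ≤ E (bb a F) R R + 2 * D + E (bb a F) Z Z + F.card ∧
      4 * E (bb a F) (R \ A) (R \ A) ≤ E (bb a F) R R - 2 * D + E (bb a F) Z Z + F.card ∧
      |D - ∑ w ∈ Z, E (bb a F) {w} R| ≤ 3 * M := by
  set b := bb a F with hb
  have hs : ∀ x y, b x y = b y x := bb_symm ha F
  obtain ⟨S, hS, h1, h2⟩ := pairing (b := b) (F := F) hs (bb_diag ha F) (bb_ge ha F)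
    (bb_nonneg ha F) (fun w => E b {w} R) (le_refl M) hM Z (R \ Z).card (R \ Z) rfl
    Finset.disjoint_sdiff M (by omega) (le_refl _) (by
      intro x hx
      have := hg x (Finset.mem_sdiff.1 hx).1
      rw [abs_le] at this
      exact this)
  rw [Finset.union_sdiff_of_subset hZ] at h1
  have hAR : Z ∪ S ⊆ R := Finset.union_subset hZ (hS.trans Finset.sdiff_subset)
  have hA' : R \ (Z ∪ S) = (R \ Z) \ S := by
    ext z; simp only [Finset.mem_sdiff, Finset.mem_union, not_or]; tauto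
  have hdA : Disjoint (Z ∪ S) (R \ (Z ∪ S)) := Finset.disjoint_sdiff
  have huA : (Z ∪ S) ∪ (R \ (Z ∪ S)) = R := Finset.union_sdiff_of_subset hAR
  have hcF : (((R \ Z) ∩ F).card : ℤ) ≤ F.card := by
    exact_mod_cast Finset.card_le_card Finset.inter_subset_right
  have hZS : Disjoint Z S := by
    rw [Finset.disjoint_left]; intro z hz hz2
    exact (Finset.mem_sdiff.1 (hS hz2)).2 hz
  -- sums over A and A'
  have gA : ∑ w ∈ Z ∪ S, E b {w} R = E b (Z ∪ S) (Z ∪ S) + E b (Z ∪ S) (R \ (Z ∪ S)) := by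
    rw [← E_eq_sum_left]
    conv_lhs => rw [← huA]
    rw [huA]
    have := E_union_right b (Z ∪ S) hdA
    rw [huA] at this
    exact this
  have gA' : ∑ w ∈ R \ (Z ∪ S), E b {w} R =
      E b (R \ (Z ∪ S)) (R \ (Z ∪ S)) + E b (Z ∪ S) (R \ (Z ∪ S)) := by
    rw [← E_eq_sum_left]
    have := E_union_right b (R \ (Z ∪ S)) hdA
    rw [huA] at this
    rw [this, E_comm' hs (R \ (Z ∪ S)) (Z ∪ S)]; ring
  have gT : E b R R = ∑ w ∈ Z ∪ S, E b {w} R + ∑ w ∈ R \ (Z ∪ S), E b {w} R := by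
    rw [E_eq_sum_left b R R, ← Finset.sum_union hdA, huA]
  have gZ : ∑ w ∈ Z ∪ S, E b {w} R = ∑ w ∈ Z, E b {w} R + ∑ w ∈ S, E b {w} R :=
    Finset.sum_union hZS
  refine ⟨Z ∪ S, hAR, ∑ w ∈ Z ∪ S, E b {w} R - ∑ w ∈ R \ (Z ∪ S), E b {w} R, ?_, ?_, ?_⟩
  · rw [hA'] at *
    linarith
  · rw [hA'] at *
    linarith
  · have e : ∑ w ∈ Z ∪ S, E b {w} R - ∑ w ∈ R \ (Z ∪ S), E b {w} R - ∑ w ∈ Z, E b {w} R =
        ∑ x ∈ S, E b {x} R - ∑ x ∈ (R \ Z) \ S, E b {x} R := by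
      rw [gZ, hA']; ring
    rw [e]
    have e2 : M + M + M = 3 * M := by ring
    rw [← e2]
    exact h2

end Pool.Agent.W31.JP
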