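import Pool.Agent.W31.JP.Twin
import Pool.Agent.W31.JP.Clique
import Pool.Agent.W31.JP.Color
import Pool.Agent.W31.JP.LemB

set_option autoImplicit false
set_option linter.unusedSectionVars false
set_option maxHeartbeats 4000000

namespace Pool.Agent.W31.JP

open Finset

variable {V : Type*} [DecidableEq V] [Fintype V]

/-- Without a large cut the graph is essentially a large clique. -/
theorem extract {a : V → V → ℤ} (ha : Adj01 a) {l t : ℕ} (ht : 0 < t) (hl : 2000 * t ≤ l)
    (hm : E a univ univ = 2 * (l : ℤ) * (2 * l - 1))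
    (hno : ∀ S : Finset V, E a S Sᶜ < (l : ℤ) ^ 2 + 3 * t) :
    ∃ K : Finset V, Clq a K ∧ K.card = 2 * (l - 44 * t) ∧
      (∀ w, w ∉ K → (∀ v ∈ K, a w v = 1) ∨ (∀ v ∈ K, a w v = 0)) ∧
      (∀ w, w ∉ K → E a {w} Kᶜ ≤ 100 * t) := by
  classical
  have hHC : ∀ (X : Finset V) (c : ℤ), HC a X c → c < 2 * l + 12 * t := by
    intro X c h
    obtain ⟨S, -, hS⟩ := HC.superset ha (Finset.subset_univ X) h
    rw [← Finset.compl_eq_univ_sdiff] at hS
    have h1 := hno S
    rw [hm] at hS
    nlinarith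
  -- no colouring
  have hcol : ¬ Col a univ (2 * (l - 6 * t)) := by
    rintro ⟨c, hc1, hc2⟩
    obtain ⟨S, hS⟩ := color_bound ha (l - 6 * t) c (fun v => hc1 v (Finset.mem_univ v))
      (fun u v huv => hc2 u (Finset.mem_univ u) v (Finset.mem_univ v) huv)
    have h1 := hno S
    rw [hm] at hS
    have hh : ((l - 6 * t : ℕ) : ℤ) = l - 6 * t := by
      rw [Nat.cast_sub (by omega)]; push_cast; ring
    rw [hh] at hS
    have htz : (0 : ℤ) < t := by exact_mod_cast ht
    have hlz : 2000 * (t : ℤ) ≤ l := by exact_mod_cast hl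
    have h2 : 0 < 2 * ((l : ℤ) - 6 * t) - 1 := by linarith
    have h3 : 2 * (2 * ((l : ℤ) - 6 * t) - 1) * E a S Sᶜ ≤
        2 * (2 * ((l : ℤ) - 6 * t) - 1) * ((l : ℤ) ^ 2 + 3 * t) :=
      mul_le_mul_of_nonneg_left h1.le (by linarith)
    nlinarith
  obtain ⟨U, -, hU1, hU2⟩ := critical ha hcol
  have htz : (0 : ℤ) < t := by exact_mod_cast ht
  have hlz : 2000 * (t : ℤ) ≤ l := by exact_mod_cast hl
  have hUc : U.card ≤ 2 * l + 13 * t := by
    by_contra hlt
    push Not at hlt
    have h1 : E a U U ≤ E a univ univ := E_mono ha (Finset.subset_univ _) (Finset.subset_univ _)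
    rw [hm] at h1
    have hh : ((2 * (l - 6 * t) : ℕ) : ℤ) = 2 * (l - 6 * t) := by
      rw [Nat.cast_mul, Nat.cast_sub (by omega)]; push_cast; ring
    rw [hh] at hU2
    have h2 : 2 * (l : ℤ) + 13 * t + 1 ≤ U.card := by exact_mod_cast hlt
    have h3 : 2 * ((l : ℤ) - 6 * t) * (2 * (l : ℤ) + 13 * t + 1) ≤ 2 * ((l : ℤ) - 6 * t) * U.card :=
      mul_le_mul_of_nonneg_left h2 (by linarith)
    nlinarith
  obtain ⟨K1, -, hK1, hK1c⟩ := clique_of_not_col ha _ U _ rfl hU1
  obtain ⟨K0, hK0s, hK0c⟩ := Finset.exists_subset_card_eq (s := K1) (n := 2 * (l - 19 * t))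
    (by omega)
  have hK0 : Clq a K0 := hK1.mono hK0s
  obtain ⟨K', hK's, q, hq, htw, hHCq⟩ := twin ha hK0 (univ \ K0) Finset.sdiff_disjoint
  have hK' : Clq a K' := hK0.mono hK's
  have hK'c : K'.card = 2 * (l - 19 * t - q) := by omega
  have hd : Disjoint ((univ \ K0) ∪ (K0 \ K')) K' := by
    rw [Finset.disjoint_union_left]
    exact ⟨Finset.sdiff_disjoint.mono_right hK's, Finset.sdiff_disjoint⟩
  have h1 := hHC _ _ (HC.union ha hd hHCq (HC.clique ha hK' hK'c))
  have hq2 : q < 25 * t := by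
    have hqq : q ≤ l - 19 * t := by omega
    have : ((l - 19 * t - q : ℕ) : ℤ) = l - 19 * t - q := by
      rw [Nat.cast_sub hqq, Nat.cast_sub (by omega)]; push_cast; ring
    rw [this] at h1
    have h2 : (2 : ℤ) * q < 50 * t := by linarith
    omega
  obtain ⟨K, hKs, hKc⟩ := Finset.exists_subset_card_eq (s := K') (n := 2 * (l - 44 * t))
    (by omega)
  have hK : Clq a K := hK'.mono hKs
  refine ⟨K, hK, hKc, ?_, ?_⟩
  · intro w hw
    by_cases hw0 : w ∈ K0
    · left
      intro v hv
      exact hK0 w hw0 v (hK's (hKs hv)) (fun e => hw (e ▸ hv))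
    · rcases htw w (by simp [hw0]) with h | h
      · exact Or.inl fun v hv => h v (hKs hv)
      · exact Or.inr fun v hv => h v (hKs hv)
  · intro w hw
    set N := Kᶜ.filter (fun y => a w y = 1) with hN
    have hwN : w ∉ N := by
      intro h
      have := (Finset.mem_filter.1 h).2
      rw [ha.diag] at this
      omega
    have hst := HC.star ha w N.card N rfl hwN (fun x hx => (Finset.mem_filter.1 hx).2)
    have hd2 : Disjoint (insert w N) K := by
      rw [Finset.disjoint_insert_left]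
      refine ⟨hw, ?_⟩
      rw [Finset.disjoint_left]
      intro z hz
      exact Finset.mem_compl.1 (Finset.mem_filter.1 hz).1
    have h2 := hHC _ _ (HC.union ha hd2 hst (HC.clique ha hK hKc))
    have h3 : E a {w} Kᶜ = N.card := by
      rw [E_single_left, hN, Finset.card_filter]
      push_cast
      refine Finset.sum_congr rfl fun y _ => ?_
      rcases ha.zo w y with h | h <;> simp [h]
    rw [h3]
    have : ((l - 44 * t : ℕ) : ℤ) = l - 44 * t := by
      rw [Nat.cast_sub (by omega)]; push_cast; ring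
    rw [this] at h2
    linarith

end Pool.Agent.W31.JP
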