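import Pool.Agent.W31.JP.Fin1
import Pool.Agent.W31.JP.Struct

set_option autoImplicit false
set_option linter.unusedSectionVars false
set_option maxHeartbeats 4000000

namespace Pool.Agent.W31.JP

open Finset

variable {V : Type*} [DecidableEq V] [Fintype V]

theorem finish {a : V → V → ℤ} (ha : Adj01 a) {l t : ℕ} (ht : 0 < t) (hl : 2000 * t ≤ l)
    (hm : E a univ univ = 2 * (l : ℤ) * (2 * l - 1)) {K : Finset V} (hK : Clq a K)
    (hKc : K.card = 2 * (l - 44 * t))
    (htw : ∀ w, w ∉ K → (∀ v ∈ K, a w v = 1) ∨ (∀ v ∈ K, a w v = 0))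
    (hdeg : ∀ w, w ∉ K → E a {w} Kᶜ ≤ 100 * t) :
    ∃ S : Finset V, E a S S ≤ (l : ℤ) ^ 2 - 2 * t ∧ E a Sᶜ Sᶜ ≤ (l : ℤ) ^ 2 - 2 * t := by
  classical
  have htz : (0 : ℤ) < t := by exact_mod_cast ht
  have hlz : 2000 * (t : ℤ) ≤ l := by exact_mod_cast hl
  have hKz : (K.card : ℤ) = 2 * (l - 44 * t) := by
    rw [hKc, Nat.cast_mul, Nat.cast_sub (by omega)]; push_cast; ring
  set F := Kᶜ.filter (fun u => ∀ v ∈ K, a u v = 1) with hF
  have hFR : F ⊆ Kᶜ := Finset.filter_subset _ _
  have hF1 : ∀ w ∈ F, ∀ v ∈ K, a w v = 1 := fun w hw => (Finset.mem_filter.1 hw).2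
  have hF0 : ∀ w, w ∉ K → w ∉ F → ∀ v ∈ K, a w v = 0 := by
    intro w hw hwF
    rcases htw w hw with h | h
    · exact absurd (Finset.mem_filter.2 ⟨Finset.mem_compl.2 hw, h⟩) hwF
    · exact h
  clear_value F
  clear hF
  -- total
  have htot : E a univ univ = ((K.card : ℤ) + F.card) * ((K.card : ℤ) + F.card - 1) +
      E (bb a F) Kᶜ Kᶜ := by
    have := side ha hK hF1 hF0 (Finset.Subset.refl K) (disjoint_compl_left : Disjoint Kᶜ K)
    rw [Finset.union_compl, Finset.inter_eq_right.2 hFR] at this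
    exact this
  -- size of F
  have hFKd : Disjoint F K := by
    rw [Finset.disjoint_left]; intro z hz; exact Finset.mem_compl.1 (hFR hz)
  have hfz : (F.card : ℤ) ≤ 90 * t := by
    have h1 : E a (K ∪ F) (K ∪ F) ≤ E a univ univ :=
      E_mono ha (Finset.subset_univ _) (Finset.subset_univ _)
    have h2 : E a F K = (F.card : ℤ) * K.card := by
      unfold E
      calc ∑ x ∈ F, ∑ y ∈ K, a x y = ∑ x ∈ F, ∑ y ∈ K, (1 : ℤ) :=
            Finset.sum_congr rfl fun x hx => Finset.sum_congr rfl fun y hy => hF1 x hx y hy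
        _ = _ := by simp
    rw [E_union_left a _ hFKd.symm, E_union_right a _ hFKd.symm, E_union_right a _ hFKd.symm,
      E_comm ha K F, h2, E_clq_self ha hK, hm] at h1
    have h3 := E_nonneg ha F F
    by_contra hlt
    push Not at hlt
    have h4 : 90 * (t : ℤ) + 1 ≤ F.card := by omega
    have h5 : (K.card : ℤ) * (90 * (t : ℤ) + 1) ≤ K.card * F.card :=
      mul_le_mul_of_nonneg_left h4 (by positivity)
    rw [hKz] at h1 h5
    nlinarith
  have hf0 : (0 : ℤ) ≤ F.card := by positivity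
  -- g bounds
  have hg : ∀ w ∈ Kᶜ, |E (bb a F) {w} Kᶜ| ≤ 100 * (t : ℤ) := by
    intro w hw
    have h1 : E (bb a F) {w} Kᶜ ≤ 100 * t :=
      le_trans (E_bb_le _ _ _) (hdeg w (Finset.mem_compl.1 hw))
    have h2 : -(F.card : ℤ) ≤ E (bb a F) {w} Kᶜ := by
      rw [E_single_left]
      calc -(F.card : ℤ) = ∑ y ∈ Kᶜ, (if y ∈ F then (-1 : ℤ) else 0) := by
            rw [← Finset.sum_filter, Finset.filter_mem_eq_inter, Finset.inter_eq_right.2 hFR]
            simp
        _ ≤ _ := by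
            refine Finset.sum_le_sum fun y _ => ?_
            by_cases hy : y ∈ F
            · rw [if_pos hy]; exact bb_ge ha F w y
            · rw [if_neg hy]; exact bb_nonneg ha F w y (Or.inr hy)
    rw [abs_le]
    constructor <;> omega
  have hM : (0 : ℤ) ≤ 100 * t := by omega
  -- cardinalities
  have hFc : F.card ≤ 90 * t := by exact_mod_cast hfz
  have hAF : ∀ A : Finset V, (A ∩ F).card ≤ 90 * t := fun A =>
    (Finset.card_le_card Finset.inter_subset_right).trans hFc
  set T := E (bb a F) Kᶜ Kᶜ with hT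
  rw [hm] at htot
  obtain ⟨n, hn | hn⟩ : ∃ n : ℕ, K.card + F.card = 2 * n ∨ K.card + F.card = 2 * n + 1 := by
    rcases Nat.even_or_odd' (K.card + F.card) with ⟨n, h | h⟩
    · exact ⟨n, Or.inl h⟩
    · exact ⟨n, Or.inr h⟩
  · -- even case
    obtain ⟨A, hA, D, h1, h2, h3⟩ := balance ha (R := Kᶜ) (F := F) (Z := ∅) hM hFR hg (by simp)
    obtain ⟨S, hS1, hS2⟩ := final_split ha hK hF1 hF0 hFR hA n (by have := hAF A; omega)
      (by omega)
    have hnz : (K.card : ℤ) + F.card = 2 * n := by exact_mod_cast hn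
    rw [hnz] at hS2 htot
    rw [← hT] at h1 h2
    simp only [E_empty_left, Finset.sum_empty, sub_zero, add_zero] at h1 h2 h3
    rw [abs_le] at h3
    refine ⟨S, ?_, ?_⟩
    · rw [hS1]
      nlinarith
    · rw [hS2]
      nlinarith
  · -- odd case
    have hnz : (K.card : ℤ) + F.card = 2 * n + 1 := by exact_mod_cast hn
    have hn1 : (n : ℤ) ≤ l + t := by linarith
    have hn2 : (l : ℤ) - 44 * t - 1 ≤ n := by linarith
    rw [hnz] at htot
    have hTe : T = 2 * ((l : ℤ) + n) * (2 * (l - n) - 1) := by linarith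
    have hTsum : T = ∑ w ∈ Kᶜ, E (bb a F) {w} Kᶜ := by rw [hT, E_eq_sum_left]
    -- nonnegativity off F
    have hgO : ∀ w, w ∉ F → 0 ≤ E (bb a F) {w} Kᶜ := by
      intro w hw
      rw [E_single_left]
      exact Finset.sum_nonneg fun y _ => bb_nonneg ha F w y (Or.inl hw)
    have hZF : ∀ Z : Finset V, Z ⊆ F → E (bb a F) Z Z ≤ 0 := by
      intro Z hZ
      exact Finset.sum_nonpos fun x hx => Finset.sum_nonpos fun y hy =>
        bb_nonpos ha F x y (hZ hx) (hZ hy)
    have hsplit : T = ∑ w ∈ Kᶜ \ F, E (bb a F) {w} Kᶜ + ∑ w ∈ F, E (bb a F) {w} Kᶜ := by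
      rw [hTsum, Finset.sum_sdiff hFR]
    rcases lt_or_ge n l with hnl | hnl
    · -- T > 0
      have hnlz : (n : ℤ) + 1 ≤ l := by exact_mod_cast hnl
      have hTpos : 3 * (l : ℤ) ≤ T := by
        rw [hTe]
        nlinarith
      -- choose Z
      have hZex : ∃ Z ⊆ Kᶜ, E (bb a F) Z Z ≤ ∑ w ∈ Z, E (bb a F) {w} Kᶜ ∧
          700 * (t : ℤ) ≤ ∑ w ∈ Z, E (bb a F) {w} Kᶜ ∧
          2 * ∑ w ∈ Z, E (bb a F) {w} Kᶜ < 3 * (700 * (t : ℤ)) := by
        rcases le_or_gt (700 * (t : ℤ)) (∑ w ∈ Kᶜ \ F, E (bb a F) {w} Kᶜ) with hO | hO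
        · obtain ⟨Z, hZ, h1, h2⟩ := greedy (fun w => E (bb a F) {w} Kᶜ) (700 * (t : ℤ)) (Kᶜ \ F)
            (by
              intro v hv
              have := hg v (Finset.mem_sdiff.1 hv).1
              rw [abs_le] at this
              linarith [this.2]) hO (by omega)
          refine ⟨Z, hZ.trans Finset.sdiff_subset, ?_, h1, h2⟩
          rw [E_eq_sum_left]
          refine Finset.sum_le_sum fun x hx => ?_
          rw [E_single_left, E_single_left]
          refine Finset.sum_le_sum_of_subset_of_nonneg (hZ.trans Finset.sdiff_subset) ?_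
          intro y _ _
          exact bb_nonneg ha F x y (Or.inl (Finset.mem_sdiff.1 (hZ hx)).2)
        · have hFs : 700 * (t : ℤ) ≤ ∑ w ∈ F.filter (fun w => 0 ≤ E (bb a F) {w} Kᶜ),
              E (bb a F) {w} Kᶜ := by
            have h1 : ∑ w ∈ F, E (bb a F) {w} Kᶜ ≤
                ∑ w ∈ F.filter (fun w => 0 ≤ E (bb a F) {w} Kᶜ), E (bb a F) {w} Kᶜ := by
              rw [Finset.sum_filter]
              refine Finset.sum_le_sum fun w _ => ?_
              split_ifs with h
              · exact le_refl _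
              · push Not at h; exact h.le
            linarith
          obtain ⟨Z, hZ, h1, h2⟩ := greedy (fun w => E (bb a F) {w} Kᶜ) (700 * (t : ℤ))
            (F.filter (fun w => 0 ≤ E (bb a F) {w} Kᶜ))
            (by
              intro v hv
              have := hg v (hFR (Finset.mem_filter.1 hv).1)
              rw [abs_le] at this
              linarith [this.2]) hFs (by omega)
          have hZF' : Z ⊆ F := hZ.trans (Finset.filter_subset _ _)
          refine ⟨Z, hZF'.trans hFR, ?_, h1, h2⟩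
          have h3 := hZF Z hZF'
          have h4 : 700 * (t : ℤ) ≤ ∑ w ∈ Z, E (bb a F) {w} Kᶜ := h1
          linarith
      obtain ⟨Z, hZ, hZ1, hZ2, hZ3⟩ := hZex
      obtain ⟨A, hA, D, h1, h2, h3⟩ := balance ha hM hFR hg hZ
      obtain ⟨S, hS1, hS2⟩ := final_split ha hK hF1 hF0 hFR hA n (by have := hAF A; omega)
        (by omega)
      rw [hnz] at hS2
      rw [← hT] at h1 h2
      rw [abs_le] at h3
      set GZ := ∑ w ∈ Z, E (bb a F) {w} Kᶜ with hGZ
      obtain ⟨h3a, h3b⟩ := h3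
      refine ⟨S, ?_, ?_⟩
      · rw [hS1]
        nlinarith
      · rw [hS2]
        nlinarith
    · -- T < 0
      have hnlz : (l : ℤ) ≤ n := by exact_mod_cast hnl
      have hTneg : T ≤ - 3 * (l : ℤ) := by
        rw [hTe]
        nlinarith
      have hFs : 700 * (t : ℤ) ≤ ∑ w ∈ F.filter (fun w => E (bb a F) {w} Kᶜ ≤ 0),
          -E (bb a F) {w} Kᶜ := by
        have h1 : ∑ w ∈ F, -E (bb a F) {w} Kᶜ ≤
            ∑ w ∈ F.filter (fun w => E (bb a F) {w} Kᶜ ≤ 0), -E (bb a F) {w} Kᶜ := by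
          rw [Finset.sum_filter]
          refine Finset.sum_le_sum fun w _ => ?_
          split_ifs with h
          · exact le_refl _
          · push Not at h; linarith
        have h2 : 0 ≤ ∑ w ∈ Kᶜ \ F, E (bb a F) {w} Kᶜ :=
          Finset.sum_nonneg fun w hw => hgO w (Finset.mem_sdiff.1 hw).2
        rw [Finset.sum_neg_distrib] at h1
        linarith
      obtain ⟨Z, hZ, hz1, hz2⟩ := greedy (fun w => -E (bb a F) {w} Kᶜ) (700 * (t : ℤ))
        (F.filter (fun w => E (bb a F) {w} Kᶜ ≤ 0))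
        (by
          intro v hv
          have := hg v (hFR (Finset.mem_filter.1 hv).1)
          rw [abs_le] at this
          linarith [this.1]) hFs (by omega)
      have hZF' : Z ⊆ F := hZ.trans (Finset.filter_subset _ _)
      have hz0 := hZF Z hZF'
      rw [Finset.sum_neg_distrib] at hz1 hz2
      obtain ⟨A, hA, D, h1, h2, h3⟩ := balance ha hM hFR hg (hZF'.trans hFR)
      obtain ⟨S, hS1, hS2⟩ := final_split ha hK hF1 hF0 hFR hA (n + 1)
        (by have := hAF A; omega) (by omega)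
      rw [hnz] at hS2
      rw [← hT] at h1 h2
      rw [abs_le] at h3
      set GZ := ∑ w ∈ Z, E (bb a F) {w} Kᶜ with hGZ
      obtain ⟨h3a, h3b⟩ := h3
      push_cast at hS1 hS2
      refine ⟨S, ?_, ?_⟩
      · rw [hS1]
        nlinarith
      · rw [hS2]
        nlinarith

/-- The main integer statement. -/
theorem main_int {a : V → V → ℤ} (ha : Adj01 a) {l t : ℕ} (ht : 0 < t) (hl : 2000 * t ≤ l)
    (hm : E a univ univ = 2 * (l : ℤ) * (2 * l - 1)) :
    ∃ S : Finset V, E a S S ≤ (l : ℤ) ^ 2 - 2 * t ∧ E a Sᶜ Sᶜ ≤ (l : ℤ) ^ 2 - 2 * t := by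
  by_cases hcut : ∃ S : Finset V, (l : ℤ) ^ 2 + 3 * t ≤ E a S Sᶜ
  · exact lemmaB ha (by exact_mod_cast ht) (by exact_mod_cast (by omega : 20 * t ≤ l)) hm hcut
  · push Not at hcut
    obtain ⟨K, hK, hKc, htw, hdeg⟩ := extract ha ht hl hm hcut
    exact finish ha ht hl hm hK hKc htw hdeg

end Pool.Agent.W31.JP
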