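import Pool.Agent.W31.JP.Basic

set_option autoImplicit false
set_option linter.unusedSectionVars false

namespace Pool.Agent.W31.JP

open Finset

variable {V : Type*} [DecidableEq V]

theorem E_comm' {b : V → V → ℤ} (hs : ∀ x y, b x y = b y x) (X Y : Finset V) :
    E b X Y = E b Y X := by
  unfold E; rw [Finset.sum_comm]
  refine Finset.sum_congr rfl fun x _ => Finset.sum_congr rfl fun y _ => hs _ _

theorem E_ss (b : V → V → ℤ) (x y : V) : E b {x} {y} = b x y := by simp [E]

theorem tot_add {b : V → V → ℤ} (hs : ∀ x y, b x y = b y x) (hd0 : ∀ x, b x x = 0)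
    {Q : Finset V} {x : V} (hx : x ∉ Q) :
    E b (Q ∪ {x}) (Q ∪ {x}) = E b Q Q + 2 * E b {x} Q := by
  have d : Disjoint Q {x} := Finset.disjoint_singleton_right.2 hx
  rw [E_union_left b _ d, E_union_right b _ d, E_union_right b _ d, E_ss, hd0,
    E_comm' hs Q {x}]; ring

set_option maxHeartbeats 4000000 in
/-- Splitting a set of vertices into two sides by pairing, `Z` fixed on one side. -/
theorem pairing {b : V → V → ℤ} (hs : ∀ x y, b x y = b y x) (hd0 : ∀ x, b x x = 0)
    {F : Finset V} (hb1 : ∀ x y, -1 ≤ b x y) (hb2 : ∀ x y, x ∉ F ∨ y ∉ F → 0 ≤ b x y)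
    (g : V → ℤ) {M M0 : ℤ} (hM : M ≤ M0) (hM0 : 0 ≤ M0) (Z : Finset V) :
    ∀ (n : ℕ) (X : Finset V), X.card = n → Disjoint Z X → ∀ B : ℤ, -M ≤ B → B ≤ M0 →
      (∀ x ∈ X, -M ≤ g x ∧ g x ≤ B) →
      ∃ S ⊆ X, E b (Z ∪ X) (Z ∪ X) - E b Z Z - (X ∩ F).card ≤ 4 * E b (Z ∪ S) (X \ S) ∧
        |∑ x ∈ S, g x - ∑ x ∈ X \ S, g x| ≤ (B + M) + M0 := by
  intro n
  induction n using Nat.strong_induction_on with
  | _ n ih =>
    intro X hX hdZX B hB1 hB2 hg
    rcases Nat.lt_or_ge n 2 with hn | hn
    · rcases Nat.lt_or_ge n 1 with h0 | h1
      · have : X = ∅ := Finset.card_eq_zero.1 (by omega)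
        subst this
        refine ⟨∅, by simp, ?_, ?_⟩
        · simp [E]
        · simp; omega
      · obtain ⟨x, rfl⟩ := Finset.card_eq_one.1 (show X.card = 1 by omega)
        have hgx := hg x (by simp)
        have habs : |g x| ≤ (B + M) + M0 := by
          rw [abs_le]; constructor <;> omega
        have hc : E b (Z ∪ {x}) (Z ∪ {x}) = E b Z Z + 2 * E b Z {x} := by
          rw [E_union_left b _ hdZX, E_union_right b _ hdZX, E_union_right b _ hdZX,
            E_comm' hs {x} Z, E_ss, hd0]; ring
        by_cases hpos : 0 ≤ E b Z {x}
        · refine ⟨∅, by simp, ?_, ?_⟩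
          · rw [hc]; simp only [Finset.union_empty, Finset.sdiff_empty]
            have : (0 : ℤ) ≤ (({x} : Finset V) ∩ F).card := by positivity
            linarith
          · simp only [Finset.sum_empty, Finset.sdiff_empty, Finset.sum_singleton, zero_sub,
              abs_neg]
            exact habs
        · push Not at hpos
          refine ⟨{x}, Finset.Subset.refl _, ?_, ?_⟩
          · rw [hc]; simp only [Finset.sdiff_self, E_empty_right]
            have : (0 : ℤ) ≤ (({x} : Finset V) ∩ F).card := by positivity
            linarith
          · simp only [Finset.sum_empty, Finset.sdiff_self, Finset.sum_singleton, sub_zero]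
            exact habs
    · -- remove the two largest elements
      have hXne : X.Nonempty := Finset.card_pos.1 (by omega)
      obtain ⟨x, hx, hxmax⟩ := Finset.exists_max_image X g hXne
      have hXe : (X.erase x).Nonempty := Finset.card_pos.1 (by
        rw [Finset.card_erase_of_mem hx]; omega)
      obtain ⟨y, hy, hymax⟩ := Finset.exists_max_image (X.erase x) g hXe
      have hyX : y ∈ X := Finset.mem_of_mem_erase hy
      have hyx : y ≠ x := Finset.ne_of_mem_erase hy
      set X' := (X.erase x).erase y with hX'
      have hX'c : X'.card = n - 2 := by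
        rw [hX', Finset.card_erase_of_mem hy, Finset.card_erase_of_mem hx]; omega
      have hX'X : X' ⊆ X := (Finset.erase_subset _ _).trans (Finset.erase_subset _ _)
      have hxX' : x ∉ X' := fun h => by
        have := Finset.mem_of_mem_erase h
        exact Finset.notMem_erase x X this
      have hyX' : y ∉ X' := Finset.notMem_erase _ _
      have hgx := hg x hx
      have hgy := hg y hyX
      have hyg : g y ≤ g x := hxmax y hyX
      obtain ⟨S, hS, hS1, hS2⟩ := ih (n - 2) (by omega) X' hX'c (hdZX.mono_right hX'X) (g y)
        (by omega) (by omega) (by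
          intro z hz
          exact ⟨(hg z (hX'X hz)).1, hymax z (Finset.mem_of_mem_erase hz)⟩)
      have hxZ : x ∉ Z := fun h => (Finset.disjoint_left.1 hdZX) h hx
      have hyZ : y ∉ Z := fun h => (Finset.disjoint_left.1 hdZX) h hyX
      have hxS : x ∉ S := fun h => hxX' (hS h)
      have hyS : y ∉ S := fun h => hyX' (hS h)
      set P := Z ∪ S with hP
      set P' := X' \ S with hP'
      have hxP : x ∉ P := by simp [hP, hxZ, hxS]
      have hyP : y ∉ P := by simp [hP, hyZ, hyS]
      have hxP' : x ∉ P' := fun h => hxX' (Finset.mem_sdiff.1 h).1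
      have hyP' : y ∉ P' := fun h => hyX' (Finset.mem_sdiff.1 h).1
      have hPP' : P ∪ P' = Z ∪ X' := by
        rw [hP, hP', Finset.union_assoc, Finset.union_sdiff_of_subset hS]
      have dPP' : Disjoint P P' := by
        rw [hP, hP', Finset.disjoint_union_left]
        exact ⟨(hdZX.mono_right hX'X).mono_right Finset.sdiff_subset, Finset.disjoint_sdiff⟩
      -- total
      have dQ1 : Disjoint (Z ∪ X') {x} := by
        rw [← hPP']; simp [hxP, hxP']
      have dQ2 : Disjoint ((Z ∪ X') ∪ {x}) {y} := by
        rw [← hPP']; simp [hyP, hyP', hyx]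
      have eX : Z ∪ X = ((Z ∪ X') ∪ {x}) ∪ {y} := by
        ext z
        simp only [hX', Finset.mem_union, Finset.mem_erase, Finset.mem_singleton]
        constructor
        · rintro (h | h)
          · tauto
          · by_cases h1 : z = x
            · tauto
            · by_cases h2 : z = y <;> tauto
        · rintro (((h | h) | h) | h)
          · exact Or.inl h
          · exact Or.inr h.2.2
          · exact Or.inr (h ▸ hx)
          · exact Or.inr (h ▸ hyX)
      have dQx : Disjoint (Z ∪ X') {x} := by
        rw [← hPP']; simp [hxP, hxP']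
      have hxQ : x ∉ Z ∪ X' := by rw [← hPP']; simp [hxP, hxP']
      have hyQ : y ∉ (Z ∪ X') ∪ {x} := by rw [← hPP']; simp [hyP, hyP', hyx]
      have etot : E b (Z ∪ X) (Z ∪ X) = E b (Z ∪ X') (Z ∪ X') + 2 * E b {x} (Z ∪ X') +
          2 * E b {y} (Z ∪ X') + 2 * b x y := by
        rw [eX, tot_add hs hd0 hyQ, tot_add hs hd0 hxQ, E_union_right b _ dQx, E_ss, hs y x]
        ring
      have ex : E b {x} (Z ∪ X') = E b {x} P + E b {x} P' := by
        rw [← hPP', E_union_right b _ dPP']
      have ey : E b {y} (Z ∪ X') = E b {y} P + E b {y} P' := by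
        rw [← hPP', E_union_right b _ dPP']
      -- cardinality of X ∩ F
      have hcF : 2 * b x y + ((X ∩ F).card : ℤ) ≥ ((X' ∩ F).card : ℤ) := by
        have hsub : X' ∩ F ⊆ X ∩ F := Finset.inter_subset_inter_right hX'X
        have hle : (X' ∩ F).card ≤ (X ∩ F).card := Finset.card_le_card hsub
        by_cases hF : x ∈ F ∧ y ∈ F
        · have h1 := hb1 x y
          have hsub2 : insert x (insert y (X' ∩ F)) ⊆ X ∩ F := by
            intro z hz
            simp only [Finset.mem_insert] at hz
            rcases hz with rfl | rfl | hz
            · exact Finset.mem_inter.2 ⟨hx, hF.1⟩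
            · exact Finset.mem_inter.2 ⟨hyX, hF.2⟩
            · exact hsub hz
          have h2 := Finset.card_le_card hsub2
          rw [Finset.card_insert_of_notMem (by
              simp only [Finset.mem_insert, Finset.mem_inter, not_or, not_and]
              exact ⟨fun h => hyx h.symm, fun h => absurd h hxX'⟩),
            Finset.card_insert_of_notMem (by simp [hyX'])] at h2
          omega
        · have h1 : 0 ≤ b x y := hb2 x y (by tauto)
          omega
      have habs : ∀ s : ℤ, |s| ≤ g x - g y → ∀ r : ℤ, |r| ≤ (g y + M) + M0 →
          |r + s| ≤ (B + M) + M0 := by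
        intro s h1 r h2
        rw [abs_le] at *
        constructor <;> omega
      have hopt : 2 * E b P P' + E b {x} (Z ∪ X') + E b {y} (Z ∪ X') + 2 * b x y =
          (E b P P' + E b {x} P' + E b {y} P + b x y) +
          (E b P P' + E b {y} P' + E b {x} P + b x y) := by
        rw [ex, ey]; ring
      by_cases hch : E b P P' + E b {y} P' + E b {x} P + b x y ≤
          E b P P' + E b {x} P' + E b {y} P + b x y
      · -- x joins S
        refine ⟨insert x S, ?_, ?_, ?_⟩
        · intro z hz
          rw [Finset.mem_insert] at hz
          rcases hz with rfl | hz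
          · exact hx
          · exact hX'X (hS hz)
        · have e1 : Z ∪ insert x S = P ∪ {x} := by
            ext z; simp only [hP, Finset.mem_union, Finset.mem_insert, Finset.mem_singleton]
            tauto
          have e2 : X \ insert x S = P' ∪ {y} := by
            ext z
            simp only [hP', hX', Finset.mem_union, Finset.mem_insert, Finset.mem_singleton,
              Finset.mem_sdiff, Finset.mem_erase, not_or]
            constructor
            · rintro ⟨h1, h2, h3⟩
              by_cases h4 : z = y
              · exact Or.inr h4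
              · exact Or.inl ⟨⟨h4, h2, h1⟩, h3⟩
            · rintro (⟨⟨h4, h2, h1⟩, h3⟩ | rfl)
              · exact ⟨h1, h2, h3⟩
              · exact ⟨hyX, hyx, hyS⟩
          have d1 : Disjoint P {x} := Finset.disjoint_singleton_right.2 hxP
          have d2 : Disjoint P' {y} := Finset.disjoint_singleton_right.2 hyP'
          rw [e1, e2, E_union_left b _ d1, E_union_right b _ d2, E_union_right b _ d2, E_ss,
            E_comm' hs P {y}, etot]
          linarith
        · have e3 : ∑ z ∈ insert x S, g z = g x + ∑ z ∈ S, g z := Finset.sum_insert hxS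
          have e4 : ∑ z ∈ X \ insert x S, g z = g y + ∑ z ∈ X' \ S, g z := by
            have : X \ insert x S = insert y (X' \ S) := by
              ext z
              simp only [hX', Finset.mem_insert, Finset.mem_sdiff, Finset.mem_erase, not_or]
              constructor
              · rintro ⟨h1, h2, h3⟩
                by_cases h4 : z = y
                · exact Or.inl h4
                · exact Or.inr ⟨⟨h4, h2, h1⟩, h3⟩
              · rintro (rfl | ⟨⟨h4, h2, h1⟩, h3⟩)
                · exact ⟨hyX, hyx, hyS⟩
                · exact ⟨h1, h2, h3⟩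
            rw [this, Finset.sum_insert hyP']
          rw [e3, e4]
          have := habs (g x - g y) (by rw [abs_of_nonneg (by omega)]) _ hS2
          convert this using 2
          ring
      · push Not at hch
        refine ⟨insert y S, ?_, ?_, ?_⟩
        · intro z hz
          rw [Finset.mem_insert] at hz
          rcases hz with rfl | hz
          · exact hyX
          · exact hX'X (hS hz)
        · have e1 : Z ∪ insert y S = P ∪ {y} := by
            ext z; simp only [hP, Finset.mem_union, Finset.mem_insert, Finset.mem_singleton]
            tauto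
          have e2 : X \ insert y S = P' ∪ {x} := by
            ext z
            simp only [hP', hX', Finset.mem_union, Finset.mem_insert, Finset.mem_singleton,
              Finset.mem_sdiff, Finset.mem_erase, not_or]
            constructor
            · rintro ⟨h1, h2, h3⟩
              by_cases h4 : z = x
              · exact Or.inr h4
              · exact Or.inl ⟨⟨h2, h4, h1⟩, h3⟩
            · rintro (⟨⟨h4, h2, h1⟩, h3⟩ | rfl)
              · exact ⟨h1, h4, h3⟩
              · exact ⟨hx, fun h => hyx h.symm, hxS⟩
          have d1 : Disjoint P {y} := Finset.disjoint_singleton_right.2 hyP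
          have d2 : Disjoint P' {x} := Finset.disjoint_singleton_right.2 hxP'
          rw [e1, e2, E_union_left b _ d1, E_union_right b _ d2, E_union_right b _ d2, E_ss,
            E_comm' hs P {x}, hs y x, etot]
          linarith
        · have e3 : ∑ z ∈ insert y S, g z = g y + ∑ z ∈ S, g z := Finset.sum_insert hyS
          have e4 : ∑ z ∈ X \ insert y S, g z = g x + ∑ z ∈ X' \ S, g z := by
            have : X \ insert y S = insert x (X' \ S) := by
              ext z
              simp only [hX', Finset.mem_insert, Finset.mem_sdiff, Finset.mem_erase, not_or]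
              constructor
              · rintro ⟨h1, h2, h3⟩
                by_cases h4 : z = x
                · exact Or.inl h4
                · exact Or.inr ⟨⟨h2, h4, h1⟩, h3⟩
              · rintro (rfl | ⟨⟨h4, h2, h1⟩, h3⟩)
                · exact ⟨hx, fun h => hyx h.symm, hxS⟩
                · exact ⟨h1, h4, h3⟩
            rw [this, Finset.sum_insert hxP']
          rw [e3, e4]
          have := habs (g y - g x) (by rw [abs_of_nonpos (by omega)]; omega) _ hS2
          convert this using 2
          ring

end Pool.Agent.W31.JP
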