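import Pool.Agent.W31.JP.Clique

set_option autoImplicit false
set_option linter.unusedSectionVars false

namespace Pool.Agent.W31.JP

open Finset

variable {V : Type*} [DecidableEq V]

theorem block {a : V → V → ℤ} (ha : Adj01 a) {w : V} {K P P' : Finset V} {p : ℕ}
    (hK : Clq a K) (hw : w ∉ K) (hP : P ⊆ K) (hP' : P' ⊆ K) (hd : Disjoint P P')
    (hc : P.card = p) (hc' : P'.card = p) (h1 : ∀ v ∈ P, a w v = 1) (h0 : ∀ v ∈ P', a w v = 0) :
    HC a (insert w (P ∪ P')) (4 * p) := by
  have hwP : w ∉ P := fun h => hw (hP h)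
  have hwP' : w ∉ P' := fun h => hw (hP' h)
  have d1 : Disjoint ({w} : Finset V) P' := Finset.disjoint_singleton_left.2 hwP'
  have d2 : Disjoint ({w} ∪ P') P := by
    rw [Finset.disjoint_union_left]
    exact ⟨Finset.disjoint_singleton_left.2 hwP, hd.symm⟩
  have e0 : insert w (P ∪ P') = ({w} ∪ P') ∪ P := by
    ext z; simp only [Finset.mem_insert, Finset.mem_union, Finset.mem_singleton]; tauto
  have e1 : E a {w} P = p := by
    rw [E_single_left, Finset.sum_congr rfl h1]; simp [hc]
  have e2 : E a {w} P' = 0 := by
    rw [E_single_left, Finset.sum_congr rfl h0]; simp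
  have e3 : E a P' P = (p : ℤ) * p := by
    rw [E_clq_disj hK hP' hP hd.symm, hc, hc']
  have e4 : E a P P = (p : ℤ) * (p - 1) := by rw [E_clq_self ha (hK.mono hP), hc]
  have e5 : E a P' P' = (p : ℤ) * (p - 1) := by rw [E_clq_self ha (hK.mono hP'), hc']
  have e6 : E a ({w} : Finset V) {w} = 0 := by simp [E, ha.diag]
  refine ⟨{w} ∪ P', by rw [e0]; exact Finset.subset_union_left, ?_⟩
  rw [e0, Finset.union_sdiff_cancel_left d2]
  have e7 : E a ({w} ∪ P') P = p + (p : ℤ) * p := by rw [E_union_left a _ d1, e1, e3]
  have e8 : E a ({w} ∪ P') ({w} ∪ P') = (p : ℤ) * (p - 1) := by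
    rw [E_union_left a _ d1, E_union_right a _ d1, E_union_right a _ d1, E_comm ha P' {w},
      e2, e5, e6]; ring
  rw [E_union_left a _ d2, E_union_right a _ d2, E_union_right a _ d2, E_comm ha P, e7, e8, e4]
  ring_nf
  exact le_refl _

theorem twin {a : V → V → ℤ} (ha : Adj01 a) {K : Finset V} (hK : Clq a K) :
    ∀ W : Finset V, Disjoint W K → ∃ K' ⊆ K, ∃ q : ℕ, K.card = K'.card + 2 * q ∧
      (∀ w ∈ W, (∀ v ∈ K', a w v = 1) ∨ (∀ v ∈ K', a w v = 0)) ∧
      HC a (W ∪ (K \ K')) (4 * q) := by
  classical
  intro W
  induction W using Finset.induction_on with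
  | empty =>
    intro _
    refine ⟨K, Finset.Subset.refl _, 0, by simp, by simp, ?_⟩
    simpa using HC.zero ha ((∅ : Finset V) ∪ (K \ K))
  | insert w W hwW ih =>
    intro hd
    rw [Finset.disjoint_insert_left] at hd
    obtain ⟨hwK, hdW⟩ := hd
    obtain ⟨K1, hK1, q, hq, hun, hHC⟩ := ih hdW
    set N1 := K1.filter (fun v => a w v = 1) with hN1
    set N0 := K1.filter (fun v => a w v = 0) with hN0
    have hN10 : N1 ∪ N0 = K1 := by
      ext v; simp only [hN1, hN0, Finset.mem_union, Finset.mem_filter]
      constructor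
      · rintro (h | h) <;> exact h.1
      · intro h
        rcases ha.zo w v with h' | h'
        · exact Or.inr ⟨h, h'⟩
        · exact Or.inl ⟨h, h'⟩
    have hdN : Disjoint N1 N0 := by
      rw [Finset.disjoint_left]
      intro v h1 h0
      have := (Finset.mem_filter.1 h1).2
      have := (Finset.mem_filter.1 h0).2
      omega
    set p := min N1.card N0.card with hp
    obtain ⟨P, hP, hPc⟩ := Finset.exists_subset_card_eq (s := N1) (n := p) (min_le_left _ _)
    obtain ⟨P', hP', hPc'⟩ := Finset.exists_subset_card_eq (s := N0) (n := p) (min_le_right _ _)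
    have hPK1 : P ⊆ K1 := hP.trans (Finset.filter_subset _ _)
    have hPK1' : P' ⊆ K1 := hP'.trans (Finset.filter_subset _ _)
    have hdP : Disjoint P P' := hdN.mono hP hP'
    have hPP : P ∪ P' ⊆ K1 := Finset.union_subset hPK1 hPK1'
    have hPPc : (P ∪ P').card = 2 * p := by
      rw [Finset.card_union_of_disjoint hdP, hPc, hPc']; ring
    have hb := block ha hK hwK (hPK1.trans hK1) (hPK1'.trans hK1) hdP hPc hPc'
      (fun v hv => (Finset.mem_filter.1 (hP hv)).2) (fun v hv => (Finset.mem_filter.1 (hP' hv)).2)
    refine ⟨K1 \ (P ∪ P'), Finset.sdiff_subset.trans hK1, q + p, ?_, ?_, ?_⟩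
    · rw [Finset.card_sdiff_of_subset hPP, hPPc, hq]
      have : 2 * p ≤ K1.card := by rw [← hPPc]; exact Finset.card_le_card hPP
      omega
    · intro u hu
      rw [Finset.mem_insert] at hu
      rcases hu with rfl | hu
      · rcases le_total N1.card N0.card with hle | hle
        · -- all neighbours removed
          right
          intro v hv
          rw [Finset.mem_sdiff] at hv
          rcases ha.zo u v with h | h
          · exact h
          · exfalso
            have hv1 : v ∈ N1 := by simp [hN1, hv.1, h]
            have : P = N1 := Finset.eq_of_subset_of_card_le hP (by rw [hPc, hp]; simp [hle])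
            exact hv.2 (Finset.mem_union_left _ (this ▸ hv1))
        · left
          intro v hv
          rw [Finset.mem_sdiff] at hv
          rcases ha.zo u v with h | h
          · exfalso
            have hv1 : v ∈ N0 := by simp [hN0, hv.1, h]
            have : P' = N0 := Finset.eq_of_subset_of_card_le hP' (by rw [hPc', hp]; simp [hle])
            exact hv.2 (Finset.mem_union_right _ (this ▸ hv1))
          · exact h
      · rcases hun u hu with h | h
        · exact Or.inl fun v hv => h v (Finset.mem_sdiff.1 hv).1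
        · exact Or.inr fun v hv => h v (Finset.mem_sdiff.1 hv).1
    · have hdd : Disjoint (W ∪ (K \ K1)) (insert w (P ∪ P')) := by
        rw [Finset.disjoint_left]
        intro z hz hz2
        rw [Finset.mem_insert] at hz2
        rw [Finset.mem_union] at hz
        rcases hz2 with rfl | hz2
        · rcases hz with hz | hz
          · exact hwW hz
          · exact hwK (Finset.mem_sdiff.1 hz).1
        · rcases hz with hz | hz
          · exact (Finset.disjoint_left.1 hdW) hz (hK1 (hPP hz2))
          · exact (Finset.mem_sdiff.1 hz).2 (hPP hz2)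
      have := HC.union ha hdd hHC hb
      have e : insert w W ∪ (K \ (K1 \ (P ∪ P'))) = W ∪ (K \ K1) ∪ insert w (P ∪ P') := by
        ext z
        simp only [Finset.mem_union, Finset.mem_insert, Finset.mem_sdiff]
        have hz1 : z ∈ P → z ∈ K1 := fun h => hPK1 h
        have hz2 : z ∈ P' → z ∈ K1 := fun h => hPK1' h
        have hz3 : z ∈ K1 → z ∈ K := fun h => hK1 h
        tauto
      rw [e]
      refine this.mono ?_
      push_cast; linarith

end Pool.Agent.W31.JP
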