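import Pool.Agent.W31.JP.Real

set_option autoImplicit false
set_option linter.unusedSectionVars false
set_option maxHeartbeats 4000000

namespace Pool.Agent.W31.JP

open Finset

/-- Adding `j` disjoint edges to an adjacency function. -/
def addE {V : Type*} (a : V → V → ℤ) (j : ℕ) : V ⊕ (Fin j ⊕ Fin j) → V ⊕ (Fin j ⊕ Fin j) → ℤ
  | .inl x, .inl y => a x y
  | .inl _, .inr _ => 0
  | .inr _, .inl _ => 0
  | .inr (.inl i), .inr (.inr k) => if i = k then 1 else 0
  | .inr (.inr i), .inr (.inl k) => if i = k then 1 else 0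
  | .inr (.inl _), .inr (.inl _) => 0
  | .inr (.inr _), .inr (.inr _) => 0

theorem addE_adj {V : Type*} {a : V → V → ℤ} (ha : Adj01 a) (j : ℕ) : Adj01 (addE a j) where
  symm := by
    rintro (x | (x | x)) (y | (y | y)) <;> simp [addE, ha.symm, eq_comm]
  diag := by
    rintro (x | (x | x)) <;> simp [addE, ha.diag]
  zo := by
    rintro (x | (x | x)) (y | (y | y)) <;> simp [addE, ha.zo]
    · by_cases h : x = y <;> simp [h]
    · by_cases h : x = y <;> simp [h]

theorem addE_total {V : Type*} [Fintype V] [DecidableEq V] (a : V → V → ℤ) (j : ℕ) :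
    E (addE a j) univ univ = E a univ univ + 2 * j := by
  unfold E
  rw [Fintype.sum_sum_type, Fintype.sum_sum_type]
  simp only [Fintype.sum_sum_type, addE, Finset.sum_const_zero, add_zero, zero_add,
    Finset.sum_ite_eq, Finset.mem_univ, if_true, Finset.sum_const, Finset.card_univ,
    Fintype.card_fin, nsmul_eq_mul, mul_one]
  ring

theorem main_int_add {V : Type*} [Fintype V] [DecidableEq V] {a : V → V → ℤ} (ha : Adj01 a)
    {l t j : ℕ} (ht : 0 < t) (hl : 2000 * t ≤ l)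
    (hm : E a univ univ + 2 * j = 2 * (l : ℤ) * (2 * l - 1)) :
    ∃ S : Finset V, E a S S ≤ (l : ℤ) ^ 2 - 2 * t ∧ E a Sᶜ Sᶜ ≤ (l : ℤ) ^ 2 - 2 * t := by
  obtain ⟨S, h1, h2⟩ := main_int (addE_adj ha j) ht hl (by rw [addE_total]; exact hm)
  have key : ∀ (T : Finset V) (T' : Finset (V ⊕ (Fin j ⊕ Fin j))), (∀ x ∈ T, Sum.inl x ∈ T') →
      E a T T ≤ E (addE a j) T' T' := by
    intro T T' hT
    have e : E a T T = E (addE a j) (T.map Function.Embedding.inl)
        (T.map Function.Embedding.inl) := by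
      unfold E
      simp [addE]
    rw [e]
    have hs : T.map Function.Embedding.inl ⊆ T' := by
      intro z hz
      obtain ⟨x, hx, rfl⟩ := Finset.mem_map.1 hz
      exact hT x hx
    exact E_mono (addE_adj ha j) hs hs
  refine ⟨univ.filter (fun x => Sum.inl x ∈ S), le_trans (key _ S ?_) h1,
    le_trans (key _ Sᶜ ?_) h2⟩
  · intro x hx
    exact (Finset.mem_filter.1 hx).2
  · intro x hx
    rw [Finset.mem_compl] at hx ⊢
    intro h
    exact hx (Finset.mem_filter.2 ⟨Finset.mem_univ _, h⟩)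

/-- Graph version for a window of sizes. -/
theorem main_graph_add {l t j : ℕ} (ht : 0 < t) (hl : 2000 * t ≤ l) (n : ℕ)
    (G : SimpleGraph (Fin n)) [DecidableRel G.Adj]
    (hm : ((Finset.univ : Finset (Fin n × Fin n)).filter
            (fun p => p.1 < p.2 ∧ G.Adj p.1 p.2)).card + j = l * (2 * l - 1)) :
    ∃ S : Finset (Fin n),
      2 * ((Finset.univ : Finset (Fin n × Fin n)).filter
          (fun p => p.1 < p.2 ∧ G.Adj p.1 p.2 ∧ p.1 ∈ S ∧ p.2 ∈ S)).card + 2 * t ≤ l ^ 2 ∧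
      2 * ((Finset.univ : Finset (Fin n × Fin n)).filter
          (fun p => p.1 < p.2 ∧ G.Adj p.1 p.2 ∧ p.1 ∉ S ∧ p.2 ∉ S)).card + 2 * t ≤ l ^ 2 := by
  have h0 : E (adjf G) univ univ + 2 * j = 2 * (l : ℤ) * (2 * l - 1) := by
    rw [E_count]
    simp only [Finset.mem_univ, and_true]
    have : ((l * (2 * l - 1) : ℕ) : ℤ) = l * (2 * l - 1) := by
      rw [Nat.cast_mul, Nat.cast_sub (by omega)]; push_cast; ring
    have h1 : ((((Finset.univ : Finset (Fin n × Fin n)).filter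
            (fun p => p.1 < p.2 ∧ G.Adj p.1 p.2)).card : ℤ) + j) = l * (2 * l - 1) := by
      rw [← this, ← hm]; push_cast; ring
    linarith
  obtain ⟨S, h1, h2⟩ := main_int_add (adjf_adj G) ht hl h0
  refine ⟨S, ?_, ?_⟩
  · rw [E_count] at h1
    zify
    linarith
  · rw [E_count] at h2
    simp only [Finset.mem_compl] at h2
    zify
    linarith

theorem main_window {l m : ℕ} (hl : 2000 ≤ l) (hm1 : m ≤ l * (2 * l - 1))
    (hm2 : l * (2 * l - 1) ≤ m + 2 * (l / 2000)) (n : ℕ) (G : SimpleGraph (Fin n))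
    [DecidableRel G.Adj]
    (hm : ((Finset.univ : Finset (Fin n × Fin n)).filter
            (fun p => p.1 < p.2 ∧ G.Adj p.1 p.2)).card = m) :
    ∃ S : Finset (Fin n),
      (((max ((Finset.univ : Finset (Fin n × Fin n)).filter
          (fun p => p.1 < p.2 ∧ G.Adj p.1 p.2 ∧ p.1 ∈ S ∧ p.2 ∈ S)).card
        ((Finset.univ : Finset (Fin n × Fin n)).filter
          (fun p => p.1 < p.2 ∧ G.Adj p.1 p.2 ∧ p.1 ∉ S ∧ p.2 ∉ S)).card : ℕ) : ℝ)
      < (m : ℝ) / 4 + Real.sqrt ((m : ℝ) / 32) - Real.sqrt (m : ℝ) / 20000) := by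
  set t := l / 2000 with htdef
  have ht : 0 < t := Nat.div_pos hl (by norm_num)
  have h1 : 2000 * t ≤ l := Nat.mul_div_le l 2000
  have h2 : l < 4000 * t := by
    have : l < 2000 * (t + 1) := by
      have := Nat.lt_mul_div_succ l (show 0 < 2000 by norm_num)
      simpa [htdef] using this
    omega
  obtain ⟨j, hj⟩ := Nat.exists_eq_add_of_le hm1
  obtain ⟨S, hS1, hS2⟩ := main_graph_add (j := j) ht h1 n G (by rw [hm, ← hj])
  refine ⟨S, ?_⟩
  set P := ((Finset.univ : Finset (Fin n × Fin n)).filter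
          (fun p => p.1 < p.2 ∧ G.Adj p.1 p.2 ∧ p.1 ∈ S ∧ p.2 ∈ S)).card
  set Q := ((Finset.univ : Finset (Fin n × Fin n)).filter
          (fun p => p.1 < p.2 ∧ G.Adj p.1 p.2 ∧ p.1 ∉ S ∧ p.2 ∉ S)).card
  have hmax : 2 * max P Q + 2 * t ≤ l ^ 2 := by
    rcases le_total P Q with h | h
    · rw [max_eq_right h]; exact hS2
    · rw [max_eq_left h]; exact hS1
  have hmaxR : 2 * ((max P Q : ℕ) : ℝ) + 2 * (t : ℝ) ≤ (l : ℝ) ^ 2 := by exact_mod_cast hmax
  have hmR : ((l * (2 * l - 1) : ℕ) : ℝ) = (l : ℝ) * (2 * l - 1) := by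
    rw [Nat.cast_mul, Nat.cast_sub (by omega)]; push_cast; ring
  have htR : (1 : ℝ) ≤ t := by exact_mod_cast ht
  have hlR : (2000 : ℝ) ≤ l := by exact_mod_cast hl
  have h1R : 2000 * (t : ℝ) ≤ l := by exact_mod_cast h1
  have h2R : (l : ℝ) ≤ 4000 * t := by exact_mod_cast h2.le
  have hm1R : (m : ℝ) ≤ (l : ℝ) * (2 * l - 1) := by rw [← hmR]; exact_mod_cast hm1
  have hm2R : (l : ℝ) * (2 * l - 1) ≤ m + 2 * t := by rw [← hmR]; exact_mod_cast hm2
  have hs1 : (2 * (l : ℝ) - 1) / 8 ≤ Real.sqrt ((m : ℝ) / 32) := by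
    apply Real.le_sqrt_of_sq_le
    nlinarith
  have hs2 : Real.sqrt (m : ℝ) ≤ 3 / 2 * l := by
    rw [show (3 / 2 * (l : ℝ)) = Real.sqrt ((3 / 2 * (l : ℝ)) ^ 2) from
      (Real.sqrt_sq (by positivity)).symm]
    apply Real.sqrt_le_sqrt
    nlinarith
  linarith

end Pool.Agent.W31.JP
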